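import Pool.Agent.Lib.MP_03766d_co.Defs

/-! The reflection in the perpendicular bisector of two points. -/

namespace Pool.Agent.Lib.MP_03766d_co

open scoped InnerProductSpace BigOperators

variable {E : Type*} [NormedAddCommGroup E] [InnerProductSpace ℝ E]

theorem sg_left (v w : E) : mirror v w v = w := by
  simp [mirror]

theorem sg_right {v w : E} (h : v ≠ w) : mirror v w w = v := by
  have h1 : ‖w - v‖ ^ 2 ≠ 0 := by
    have : w - v ≠ 0 := sub_ne_zero.2 h.symm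
    positivity
  have h2 : 2 * ⟪w - v, w - v⟫_ℝ / ‖w - v‖ ^ 2 - 1 = 1 := by
    rw [real_inner_self_eq_norm_sq, mul_div_assoc, div_self h1]; norm_num
  rw [mirror, h2, one_smul]; abel

theorem sg_sub (v w x y : E) : mirror v w x - mirror v w y =
    (x - y) - (2 * ⟪x - y, w - v⟫_ℝ / ‖w - v‖ ^ 2) • (w - v) := by
  have h : ⟪x - y, w - v⟫_ℝ = ⟪x - v, w - v⟫_ℝ - ⟪y - v, w - v⟫_ℝ := by
    rw [← inner_sub_left]; congr 1; abel
  rw [h, mirror, mirror]
  have h2 : (2 * (⟪x - v, w - v⟫_ℝ - ⟪y - v, w - v⟫_ℝ) / ‖w - v‖ ^ 2) =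
    (2 * ⟪x - v, w - v⟫_ℝ / ‖w - v‖ ^ 2 - 1) - (2 * ⟪y - v, w - v⟫_ℝ / ‖w - v‖ ^ 2 - 1) := by
    ring
  rw [h2]
  generalize 2 * ⟪x - v, w - v⟫_ℝ / ‖w - v‖ ^ 2 - 1 = α
  generalize 2 * ⟪y - v, w - v⟫_ℝ / ‖w - v‖ ^ 2 - 1 = β
  module

theorem norm_sg_sub (v w x y : E) : ‖mirror v w x - mirror v w y‖ ^ 2 = ‖x - y‖ ^ 2 := by
  rw [sg_sub]
  by_cases h : w - v = 0
  · simp [h]
  have h1 : ‖w - v‖ ^ 2 ≠ 0 := by positivity
  rw [norm_sub_sq_real (x - y), inner_smul_right, norm_smul, mul_pow]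
  simp only [Real.norm_eq_abs, sq_abs]
  field_simp
  ring

theorem dist_sg (v w x y : E) : dist (mirror v w x) (mirror v w y) = dist x y := by
  rw [dist_eq_norm, dist_eq_norm]
  have := norm_sg_sub v w x y
  exact (sq_eq_sq₀ (norm_nonneg _) (norm_nonneg _)).1 this

theorem sg_sg {v w : E} (h : v ≠ w) (x : E) : mirror v w (mirror v w x) = x := by
  have h1 : ‖w - v‖ ^ 2 ≠ 0 := by
    have : w - v ≠ 0 := sub_ne_zero.2 h.symm
    positivity
  have h2 := sg_sub v w (mirror v w x) v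
  rw [sg_left] at h2
  have h3 : ⟪mirror v w x - v, w - v⟫_ℝ = ‖w - v‖ ^ 2 - ⟪x - v, w - v⟫_ℝ := by
    have h4 : mirror v w x - v = (x - v) - (2 * ⟪x - v, w - v⟫_ℝ / ‖w - v‖ ^ 2 - 1) • (w - v) := by
      rw [mirror]; abel
    rw [h4, inner_sub_left, inner_smul_left, real_inner_self_eq_norm_sq]
    simp only [RCLike.conj_to_real]
    generalize ‖w - v‖ ^ 2 = A at h1 ⊢
    field_simp
    ring
  have h5 : mirror v w (mirror v w x) = mirror v w x -
      (2 * ⟪mirror v w x - v, w - v⟫_ℝ / ‖w - v‖ ^ 2 - 1) • (w - v) := rfl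
  rw [h5, h3]
  have h6 : 2 * (‖w - v‖ ^ 2 - ⟪x - v, w - v⟫_ℝ) / ‖w - v‖ ^ 2 - 1 =
      - (2 * ⟪x - v, w - v⟫_ℝ / ‖w - v‖ ^ 2 - 1) := by
    generalize ‖w - v‖ ^ 2 = A at h1 ⊢
    field_simp
    ring
  rw [h6, neg_smul, sub_neg_eq_add, mirror, sub_add_cancel]

theorem sg_comm {v w : E} (h : v ≠ w) (x : E) : mirror w v x = mirror v w x := by
  have h1 : ‖w - v‖ ^ 2 ≠ 0 := by
    have : w - v ≠ 0 := sub_ne_zero.2 h.symm
    positivity
  have h2 : ‖v - w‖ ^ 2 = ‖w - v‖ ^ 2 := by rw [norm_sub_rev]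
  have h3 : ⟪x - w, v - w⟫_ℝ = ‖w - v‖ ^ 2 - ⟪x - v, w - v⟫_ℝ := by
    have h4 : x - w = (x - v) - (w - v) := by abel
    have h5 : v - w = - (w - v) := by abel
    rw [h4, h5, inner_neg_right, inner_sub_left, real_inner_self_eq_norm_sq]
    ring
  rw [mirror, mirror, h2, h3]
  have h6 : 2 * (‖w - v‖ ^ 2 - ⟪x - v, w - v⟫_ℝ) / ‖w - v‖ ^ 2 - 1 =
      - (2 * ⟪x - v, w - v⟫_ℝ / ‖w - v‖ ^ 2 - 1) := by
    generalize ‖w - v‖ ^ 2 = A at h1 ⊢
    field_simp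
    ring
  have h7 : v - w = - (w - v) := by abel
  rw [h6, h7, smul_neg, neg_smul, neg_neg]

theorem sg_fix {v w x : E} (h : v ≠ w) (hx : dist x v = dist x w) : mirror v w x = x := by
  have h1 : ‖w - v‖ ^ 2 ≠ 0 := by
    have : w - v ≠ 0 := sub_ne_zero.2 h.symm
    positivity
  rw [dist_eq_norm, dist_eq_norm] at hx
  have h2 : x - w = (x - v) - (w - v) := by abel
  have h3 : ‖x - v‖ ^ 2 = ‖x - v‖ ^ 2 - 2 * ⟪x - v, w - v⟫_ℝ + ‖w - v‖ ^ 2 := by
    rw [← norm_sub_sq_real (x - v) (w - v), ← h2, hx]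
  have h4 : 2 * ⟪x - v, w - v⟫_ℝ / ‖w - v‖ ^ 2 - 1 = 0 := by
    have : 2 * ⟪x - v, w - v⟫_ℝ = ‖w - v‖ ^ 2 := by linarith
    rw [this, div_self h1, sub_self]
  rw [mirror, h4, zero_smul, sub_zero]

/-- the reflection as an isometry -/
noncomputable def sgE {v w : E} (h : v ≠ w) : E ≃ᵢ E where
  toFun := mirror v w
  invFun := mirror v w
  left_inv := sg_sg h
  right_inv := sg_sg h
  isometry_toFun := Isometry.of_dist_eq (dist_sg v w)

theorem sg_map (f : E ≃ᵢ E) (x y z : E) : f (mirror x y z) = mirror (f x) (f y) (f z) := by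
  have hf : ∀ p, f p = f.toRealAffineIsometryEquiv p := fun p => by
    rw [IsometryEquiv.coeFn_toRealAffineIsometryEquiv]
  simp only [hf]
  set F := f.toRealAffineIsometryEquiv
  have hsub : ∀ p q : E, F p - F q = F.linearIsometryEquiv (p - q) := fun p q => by
    have := F.map_vsub p q
    simpa using this.symm
  have hadd : ∀ p q : E, F (p - q) = F p - F.linearIsometryEquiv q := fun p q => by
    have := hsub p (p - q)
    rw [sub_sub_cancel] at this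
    rw [← this]; abel
  rw [mirror, hadd, map_smul, mirror, hsub, hsub, LinearIsometryEquiv.inner_map_map,
    LinearIsometryEquiv.norm_map]

end Pool.Agent.Lib.MP_03766d_co
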