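import Pool.Agent.Lib.MP_03766d_co.Defs

/-! Inscribed polytopes with all edges of one length: the edge cone and the greedy step. -/

namespace Pool.Agent.Lib.MP_03766d_co

open scoped InnerProductSpace BigOperators Classical

variable {E : Type*} [NormedAddCommGroup E] [InnerProductSpace ℝ E]

theorem Edge.symm {P : Set E} {v w : E} (h : Edge P v w) : Edge P w v :=
  ⟨h.2.1, h.1, h.2.2.1.symm, by rw [segment_symm]; exact h.2.2.2⟩

/-- two points of a sphere with centre `c` -/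
theorem sphere_inner {c x y : E} {R : ℝ} (hx : ‖x - c‖ ^ 2 = R) (hy : ‖y - c‖ ^ 2 = R) :
    2 * ⟪y - x, x - c⟫_ℝ = - ‖y - x‖ ^ 2 := by
  have h : y - c = (y - x) + (x - c) := by abel
  rw [h, norm_add_sq_real] at hy
  linarith

theorem ball_inner {c x y : E} {R : ℝ} (hx : ‖x - c‖ ^ 2 = R) (hy : ‖y - c‖ ^ 2 ≤ R) :
    2 * ⟪y - x, x - c⟫_ℝ ≤ - ‖y - x‖ ^ 2 := by
  have h : y - c = (y - x) + (x - c) := by abel
  rw [h, norm_add_sq_real] at hy
  linarith

theorem hull_ball {V : Finset E} {c : E} {R : ℝ} (hV : ∀ x ∈ V, ‖x - c‖ ^ 2 = R) {y : E}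
    (hy : y ∈ convexHull ℝ (V : Set E)) : ‖y - c‖ ^ 2 ≤ R := by
  have hsub : convexHull ℝ (V : Set E) ⊆ Metric.closedBall c (Real.sqrt R) := by
    apply convexHull_min
    · intro x hx
      rw [Metric.mem_closedBall, dist_eq_norm, ← hV x (by simpa using hx),
        Real.sqrt_sq (norm_nonneg _)]
    · exact convex_closedBall _ _
  have h1 := hsub hy
  rw [Metric.mem_closedBall, dist_eq_norm] at h1
  have hne : V.Nonempty := by
    by_contra hcon
    rw [Finset.not_nonempty_iff_eq_empty] at hcon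
    simp [hcon] at hy
  obtain ⟨x, hx⟩ := hne
  have hR : 0 ≤ R := by rw [← hV x hx]; positivity
  calc ‖y - c‖ ^ 2 ≤ (Real.sqrt R) ^ 2 := by
        apply pow_le_pow_left₀ (norm_nonneg _) h1
    _ = R := Real.sq_sqrt hR

/-- points of the sphere are vertices -/
theorem mem_ext {V : Finset E} {c : E} {R : ℝ} (hV : ∀ x ∈ V, ‖x - c‖ ^ 2 = R) {x : E}
    (hx : x ∈ V) : x ∈ (convexHull ℝ (V : Set E)).extremePoints ℝ := by
  rw [mem_extremePoints_iff_left]
  refine ⟨subset_convexHull ℝ _ (by simpa using hx), ?_⟩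
  intro x₁ h₁ x₂ h₂ hseg
  obtain ⟨a, b, ha, hb, hab, hz⟩ := hseg
  have i₁ := ball_inner (hV x hx) (hull_ball hV h₁)
  have i₂ := ball_inner (hV x hx) (hull_ball hV h₂)
  have hsum : a • (x₁ - x) + b • (x₂ - x) = 0 := by
    have : a • (x₁ - x) + b • (x₂ - x) = (a • x₁ + b • x₂) - (a + b) • x := by
      simp only [smul_sub, add_smul]; abel
    rw [this, hz, hab, one_smul, sub_self]
  have hin : a * ⟪x₁ - x, x - c⟫_ℝ + b * ⟪x₂ - x, x - c⟫_ℝ = 0 := by
    have := congrArg (fun z => ⟪z, x - c⟫_ℝ) hsum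
    simpa [inner_add_left, inner_smul_left] using this
  have h3 : ‖x₁ - x‖ ^ 2 = 0 := by
    nlinarith [sq_nonneg ‖x₁ - x‖, sq_nonneg ‖x₂ - x‖, mul_pos ha hb,
      mul_nonneg ha.le (sq_nonneg ‖x₁ - x‖), mul_nonneg hb.le (sq_nonneg ‖x₂ - x‖)]
  have h4 : ‖x₁ - x‖ = 0 := by simpa using h3
  exact sub_eq_zero.1 (norm_eq_zero.1 h4)

/-- nonnegative combinations of `t - v`, `t ∈ T` -/
def InCone (v : E) (T : Finset E) (x : E) : Prop :=
  ∃ a : E → ℝ, (∀ t, 0 ≤ a t) ∧ x - v = ∑ t ∈ T, a t • (t - v)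

theorem inCone_convex (v : E) (T : Finset E) : Convex ℝ {x | InCone v T x} := by
  intro x hx y hy α β hα hβ hαβ
  obtain ⟨a, ha, hxa⟩ := hx
  obtain ⟨b, hb, hyb⟩ := hy
  refine ⟨fun t => α * a t + β * b t, fun t => by
    have := ha t; have := hb t; positivity, ?_⟩
  have h1 : α • x + β • y - v = α • (x - v) + β • (y - v) := by
    have : v = (α + β) • v := by rw [hαβ, one_smul]
    nth_rewrite 1 [this]
    simp only [smul_sub, add_smul]; abel
  rw [h1, hxa, hyb, Finset.smul_sum, Finset.smul_sum, ← Finset.sum_add_distrib]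
  apply Finset.sum_congr rfl
  intro t _
  rw [add_smul, mul_smul, mul_smul]

theorem inCone_hull {V T : Finset E} {v : E} (h : ∀ x ∈ V, InCone v T x) {x : E}
    (hx : x ∈ convexHull ℝ (V : Set E)) : InCone v T x := by
  have : convexHull ℝ (V : Set E) ⊆ {x | InCone v T x} :=
    convexHull_min (fun y hy => h y (by simpa using hy)) (inCone_convex v T)
  exact this hx

theorem exists_min_gen (V : Finset E) (v : E) : ∃ T ⊆ V.erase v, (∀ x ∈ V, InCone v T x) ∧
    ∀ T' ⊂ T, ¬ ∀ x ∈ V, InCone v T' x := by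
  classical
  let C := (V.erase v).powerset.filter (fun T => ∀ x ∈ V, InCone v T x)
  have hC : C.Nonempty := by
    refine ⟨V.erase v, ?_⟩
    simp only [C, Finset.mem_filter, Finset.mem_powerset, Finset.Subset.refl, true_and]
    intro x hx
    by_cases hxv : x = v
    · exact ⟨fun _ => 0, fun _ => le_rfl, by simp [hxv]⟩
    · refine ⟨fun t => if t = x then 1 else 0, fun t => by dsimp only; split_ifs <;> norm_num, ?_⟩
      simp [hx, hxv]
  obtain ⟨T, hT, hmin⟩ := Finset.exists_min_image C Finset.card hC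
  simp only [C, Finset.mem_filter, Finset.mem_powerset] at hT hmin
  refine ⟨T, hT.1, hT.2, fun T' hT' hcon => ?_⟩
  have h1 := hmin T' ⟨hT'.1.trans hT.1, hcon⟩
  have h2 := Finset.card_lt_card hT'
  omega

/-- The edge cone: `P` lies in the cone at `v` spanned by the edges at `v`. -/
theorem exists_edge_cone {V : Finset E} {c : E} {R : ℝ} (hV : ∀ x ∈ V, ‖x - c‖ ^ 2 = R) {v : E}
    (hv : v ∈ V) : ∃ T : Finset E, (∀ t ∈ T, t ∈ V ∧ Edge (convexHull ℝ (V : Set E)) v t) ∧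
    ∀ x ∈ convexHull ℝ (V : Set E), InCone v T x := by
  classical
  obtain ⟨T, hTV, hgen, hmin⟩ := exists_min_gen V v
  have hgen' : ∀ x ∈ convexHull ℝ (V : Set E), InCone v T x := fun x hx => inCone_hull hgen hx
  have hTm : ∀ t ∈ T, t ∈ V ∧ t ≠ v := fun t ht => by
    have := hTV ht
    rw [Finset.mem_erase] at this
    exact ⟨this.2, this.1⟩
  have hneg : ∀ t ∈ T, ⟪t - v, v - c⟫_ℝ < 0 := fun t ht => by
    have h1 := sphere_inner (hV v hv) (hV t (hTm t ht).1)
    have h2 : 0 < ‖t - v‖ ^ 2 := by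
      have : t - v ≠ 0 := sub_ne_zero.2 (hTm t ht).2
      positivity
    linarith
  refine ⟨T, fun t₀ ht₀ => ⟨(hTm t₀ ht₀).1, mem_ext hV hv, mem_ext hV (hTm t₀ ht₀).1,
    (hTm t₀ ht₀).2.symm, ?_⟩, hgen'⟩
  have hcv : Convex ℝ (convexHull ℝ (V : Set E)) := convex_convexHull ℝ _
  have hvP : v ∈ convexHull ℝ (V : Set E) := subset_convexHull ℝ _ (by simpa using hv)
  have htP : t₀ ∈ convexHull ℝ (V : Set E) :=
    subset_convexHull ℝ _ (by simpa using (hTm t₀ ht₀).1)
  -- `t₀ - v` is not in the cone of the others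
  have hnot : ¬ InCone v (T.erase t₀) t₀ := by
    rintro ⟨b, hb, hbs⟩
    apply hmin (T.erase t₀) (Finset.erase_ssubset ht₀)
    intro x hx
    obtain ⟨a, ha, has⟩ := hgen x hx
    refine ⟨fun t => a t + a t₀ * b t, fun t => by
      have := ha t; have := ha t₀; have := hb t; positivity, ?_⟩
    rw [has, ← Finset.add_sum_erase T _ ht₀, hbs, Finset.smul_sum, ← Finset.sum_add_distrib]
    apply Finset.sum_congr rfl
    intro t _
    rw [add_smul, mul_smul, add_comm]
  refine ⟨hcv.segment_subset hvP htP, ?_⟩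
  intro x₁ h₁ x₂ h₂ z hz hzo
  obtain ⟨α, β, hα, hβ, hαβ, hz12⟩ := hzo
  obtain ⟨a, ha, has⟩ := hgen' x₁ h₁
  obtain ⟨b, hb, hbs⟩ := hgen' x₂ h₂
  rw [segment_eq_image'] at hz
  obtain ⟨s, hs, hsz⟩ := hz
  simp only at hsz
  -- compare
  have hcmp : s • (t₀ - v) = ∑ t ∈ T, (α * a t + β * b t) • (t - v) := by
    have h1 : z - v = α • (x₁ - v) + β • (x₂ - v) := by
      rw [← hz12]
      have : v = (α + β) • v := by rw [hαβ, one_smul]
      nth_rewrite 1 [this]
      simp only [smul_sub, add_smul]; abel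
    have h2 : z - v = s • (t₀ - v) := by rw [← hsz]; abel
    rw [← h2, h1, has, hbs, Finset.smul_sum, Finset.smul_sum, ← Finset.sum_add_distrib]
    apply Finset.sum_congr rfl
    intro t _
    rw [add_smul, mul_smul, mul_smul]
  rw [← Finset.add_sum_erase T _ ht₀] at hcmp
  set κ : ℝ := s - (α * a t₀ + β * b t₀) with hκ
  have hcmp2 : κ • (t₀ - v) = ∑ t ∈ T.erase t₀, (α * a t + β * b t) • (t - v) := by
    rw [hκ, sub_smul, hcmp]; abel
  have hκ0 : κ ≤ 0 := by
    by_contra hpos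
    push Not at hpos
    apply hnot
    refine ⟨fun t => κ⁻¹ * (α * a t + β * b t), fun t => by
      have := ha t; have := hb t; positivity, ?_⟩
    have : t₀ - v = κ⁻¹ • (κ • (t₀ - v)) := by rw [smul_smul, inv_mul_cancel₀ hpos.ne', one_smul]
    rw [this, hcmp2, Finset.smul_sum]
    apply Finset.sum_congr rfl
    intro t _
    rw [mul_smul]
  -- pair with `v - c`
  have hin := congrArg (fun z => ⟪z, v - c⟫_ℝ) hcmp2
  simp only [inner_smul_left, sum_inner, RCLike.conj_to_real] at hin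
  have hle : ∀ t ∈ T.erase t₀, (α * a t + β * b t) * ⟪t - v, v - c⟫_ℝ ≤ 0 := fun t ht => by
    have h1 := hneg t (Finset.mem_of_mem_erase ht)
    have h2 : 0 ≤ α * a t + β * b t := by
      have := ha t; have := hb t; positivity
    nlinarith
  have hge : 0 ≤ κ * ⟪t₀ - v, v - c⟫_ℝ := by
    have h1 := hneg t₀ ht₀
    nlinarith
  have hzero : ∀ t ∈ T.erase t₀, (α * a t + β * b t) * ⟪t - v, v - c⟫_ℝ = 0 := by
    have hs0 : ∑ t ∈ T.erase t₀, (α * a t + β * b t) * ⟪t - v, v - c⟫_ℝ = 0 := by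
      apply le_antisymm (Finset.sum_nonpos hle)
      rw [← hin]; exact hge
    exact (Finset.sum_eq_zero_iff_of_nonpos hle).1 hs0
  have haz : ∀ t ∈ T.erase t₀, a t = 0 := fun t ht => by
    have h1 := hneg t (Finset.mem_of_mem_erase ht)
    have h2 := hzero t ht
    have h3 : α * a t + β * b t = 0 := by
      rcases mul_eq_zero.1 h2 with h | h
      · exact h
      · exact absurd h h1.ne
    have h4 : 0 ≤ α * a t := mul_nonneg hα.le (ha t)
    have h5 : 0 ≤ β * b t := mul_nonneg hβ.le (hb t)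
    have h6 : α * a t = 0 := by linarith
    rcases mul_eq_zero.1 h6 with h | h
    · exact absurd h hα.ne'
    · exact h
  have hx1 : x₁ - v = a t₀ • (t₀ - v) := by
    rw [has, ← Finset.add_sum_erase T _ ht₀, Finset.sum_eq_zero, add_zero]
    intro t ht
    rw [haz t ht, zero_smul]
  -- `a t₀ ≤ 1`
  have hball := ball_inner (hV v hv) (hull_ball hV h₁)
  have hsph := sphere_inner (hV v hv) (hV t₀ (hTm t₀ ht₀).1)
  rw [hx1, inner_smul_left, norm_smul, mul_pow] at hball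
  simp only [RCLike.conj_to_real, Real.norm_eq_abs, sq_abs] at hball
  have hpos : 0 < ‖t₀ - v‖ ^ 2 := by
    have : t₀ - v ≠ 0 := sub_ne_zero.2 (hTm t₀ ht₀).2
    positivity
  have ha1 : a t₀ ≤ 1 := by
    have h7 : 2 * (a t₀ * ⟪t₀ - v, v - c⟫_ℝ) = - (a t₀ * ‖t₀ - v‖ ^ 2) := by
      have : 2 * (a t₀ * ⟪t₀ - v, v - c⟫_ℝ) = a t₀ * (2 * ⟪t₀ - v, v - c⟫_ℝ) := by ring
      rw [this, hsph]; ring
    rw [h7] at hball
    have h8 : a t₀ ^ 2 * ‖t₀ - v‖ ^ 2 ≤ a t₀ * ‖t₀ - v‖ ^ 2 := by linarith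
    have h9 : a t₀ ^ 2 ≤ a t₀ := le_of_mul_le_mul_right h8 hpos
    rcases (ha t₀).eq_or_lt with h | h
    · rw [← h]; norm_num
    · nlinarith
  rw [segment_eq_image']
  refine ⟨a t₀, ⟨ha t₀, ha1⟩, ?_⟩
  simp only
  rw [← hx1]; abel

end Pool.Agent.Lib.MP_03766d_co
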