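import Mathlib

/-! `|tr M| ≤ rank M * max (column norms)`, by a choice of columns with maximal determinant. -/

namespace Pool.Agent.Lib.MP_03766d_co

open scoped BigOperators

theorem trace_bound {ι : Type*} [Fintype ι] (W : Submodule ℝ (ι → ℝ)) (w : ι → ι → ℝ)
    (hw : ∀ s, w s ∈ W) {C : ℝ} (hC0 : 0 ≤ C) (hC : ∀ s, ∑ t, |w s t| ≤ C) :
    |∑ s, w s s| ≤ Module.finrank ℝ W * C := by
  classical
  set W' : Submodule ℝ (ι → ℝ) := Submodule.span ℝ (Set.range w) with hW'
  have hle : W' ≤ W := Submodule.span_le.2 (by rintro _ ⟨s, rfl⟩; exact hw s)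
  set k := Module.finrank ℝ W' with hk
  have hkW : k ≤ Module.finrank ℝ W := Submodule.finrank_mono hle
  have hxm : ∀ s, w s ∈ W' := fun s => Submodule.subset_span ⟨s, rfl⟩
  let x : ι → W' := fun s => ⟨w s, hxm s⟩
  let b : Module.Basis (Fin k) ℝ W' := Module.finBasis ℝ W'
  obtain ⟨f, hf, hfs, hfi⟩ := Submodule.exists_fun_fin_finrank_span_eq ℝ (Set.range w)
  choose J₀ hJ₀ using hf
  have hli₀ : LinearIndependent ℝ (x ∘ J₀) := by
    apply LinearIndependent.of_comp W'.subtype
    have : W'.subtype ∘ (x ∘ J₀) = f := funext fun i => hJ₀ i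
    rw [this]
    exact hfi
  have hdet₀ : b.det (x ∘ J₀) ≠ 0 := by
    have h1 : Submodule.span ℝ (Set.range (x ∘ J₀)) = ⊤ :=
      hli₀.span_eq_top_of_card_eq_finrank' (by rw [Fintype.card_fin])
    exact ((b.is_basis_iff_det).1 ⟨hli₀, h1⟩).ne_zero
  obtain ⟨J, _, hJ⟩ := Finset.exists_max_image Finset.univ
    (fun J : Fin k → ι => |b.det (x ∘ J)|) ⟨J₀, Finset.mem_univ _⟩
  have hdet : 0 < |b.det (x ∘ J)| := (abs_pos.2 hdet₀).trans_le (hJ J₀ (Finset.mem_univ _))
  obtain ⟨hli, hsp⟩ := (b.is_basis_iff_det).2 (isUnit_iff_ne_zero.2 (abs_pos.1 hdet))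
  set e := Module.Basis.mk hli hsp.ge with he
  have hc : ∀ t j, |e.coord j (x t)| ≤ 1 := by
    intro t j
    have h1 := congrArg (fun L => L (x t)) (b.det_smul_mk_coord_eq_det_update hli hsp.ge j)
    simp only [LinearMap.smul_apply, smul_eq_mul, MultilinearMap.toLinearMap_apply,
      AlternatingMap.coe_multilinearMap] at h1
    have h2 : Function.update (x ∘ J) j (x t) = x ∘ Function.update J j t :=
      (Function.comp_update x J j t).symm
    rw [h2] at h1
    have h3 : |b.det (x ∘ J)| * |e.coord j (x t)| ≤ |b.det (x ∘ J)| * 1 := by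
      rw [← abs_mul, h1, mul_one]
      exact hJ _ (Finset.mem_univ _)
    exact le_of_mul_le_mul_left h3 hdet
  have hexp : ∀ t s, w t s = ∑ j, e.coord j (x t) * w (J j) s := by
    intro t s
    have h1 := e.sum_repr (x t)
    have h2 := congrArg (fun y : W' => (y : ι → ℝ) s) h1
    simp only [he, Module.Basis.mk_apply] at h2
    rw [← he] at h2
    have h3 : ((∑ j, e.repr (x t) j • (x ∘ J) j : W') : ι → ℝ) s =
        ∑ j, e.coord j (x t) * w (J j) s := by
      rw [Submodule.coe_sum, Finset.sum_apply]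
      rfl
    rw [← h3]
    exact h2.symm
  calc |∑ s, w s s| = |∑ s, ∑ j, e.coord j (x s) * w (J j) s| := by
        congr 1
        exact Finset.sum_congr rfl fun s _ => hexp s s
    _ ≤ ∑ s, ∑ j, |e.coord j (x s) * w (J j) s| := by
        refine (Finset.abs_sum_le_sum_abs _ _).trans ?_
        exact Finset.sum_le_sum fun s _ => Finset.abs_sum_le_sum_abs _ _
    _ ≤ ∑ s, ∑ j, |w (J j) s| := by
        refine Finset.sum_le_sum fun s _ => Finset.sum_le_sum fun j _ => ?_
        rw [abs_mul]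
        have := mul_le_mul_of_nonneg_right (hc s j) (abs_nonneg (w (J j) s))
        linarith
    _ = ∑ j : Fin k, ∑ s, |w (J j) s| := Finset.sum_comm
    _ ≤ ∑ _j : Fin k, C := Finset.sum_le_sum fun j _ => hC (J j)
    _ = k * C := by simp
    _ ≤ Module.finrank ℝ W * C := by
        have : (k : ℝ) ≤ Module.finrank ℝ W := by exact_mod_cast hkW
        exact mul_le_mul_of_nonneg_right this hC0

end Pool.Agent.Lib.MP_03766d_co
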