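import Pool.Agent.Lib.MP_03766d_co.Missing
import Pool.Agent.Lib.MP_03766d_co.Trace

/-! If every edge at `v` misses the same positive number of edges at `v` then
`4 * dim ≤ 3 * valency`. -/

namespace Pool.Agent.Lib.MP_03766d_co

open scoped InnerProductSpace BigOperators Classical

variable {E : Type*} [NormedAddCommGroup E] [InnerProductSpace ℝ E]

theorem inTwoFace_swap {P : Set E} {v w u : E} (h : InTwoFace P v w u) : InTwoFace P v u w := by
  obtain ⟨F, h1, h2, h3, h4, h5, h6⟩ := h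
  exact ⟨F, h1, h2, h3, h5, h4, h6⟩

/-- the edges at `v` that are in no two-dimensional face with `w` -/
noncomputable def mis (V : Finset E) (v w : E) : Finset E :=
  (nbr V v).filter (fun u => u ≠ w ∧ ¬ InTwoFace (convexHull ℝ (V : Set E)) v w u)

theorem mem_mis {V : Finset E} {v w u : E} : u ∈ mis V v w ↔
    u ∈ nbr V v ∧ u ≠ w ∧ ¬ InTwoFace (convexHull ℝ (V : Set E)) v w u := by
  rw [mis, Finset.mem_filter]

theorem mis_swap {V : Finset E} {v w u : E} (hw : w ∈ nbr V v) (h : u ∈ mis V v w) :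
    w ∈ mis V v u := by
  rw [mem_mis] at h ⊢
  exact ⟨hw, h.2.1.symm, fun h' => h.2.2 (inTwoFace_swap h')⟩

section
variable {V : Finset E} {c : E} {R L : ℝ}
  (hV : ∀ x ∈ V, ‖x - c‖ ^ 2 = R)
include hV

theorem span_nbr {v : E} (hv : v ∈ V) :
    Submodule.span ℝ (Set.range (fun t : (nbr V v) => (t : E) - v)) =
      vectorSpan ℝ (convexHull ℝ (V : Set E)) := by
  set P := convexHull ℝ (V : Set E) with hP
  have hvP : v ∈ P := subset_convexHull ℝ _ (by simpa using hv)
  apply le_antisymm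
  · rw [Submodule.span_le]
    rintro _ ⟨t, rfl⟩
    have : (t : E) ∈ P := subset_convexHull ℝ _ (by
      simpa using edge_mem_right (mem_nbr.1 t.2))
    exact vsub_mem_vectorSpan ℝ this hvP
  · rw [vectorSpan_eq_span_vsub_set_right ℝ hvP, Submodule.span_le]
    rintro _ ⟨x, hx, rfl⟩
    obtain ⟨a, _, has⟩ := cone_nbr hV hv hx
    simp only [vsub_eq_sub, SetLike.mem_coe]
    rw [has]
    apply Submodule.sum_mem
    intro t ht
    apply Submodule.smul_mem
    exact Submodule.subset_span ⟨⟨t, ht⟩, rfl⟩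

variable (hL : ∀ v w, Edge (convexHull ℝ (V : Set E)) v w → ‖w - v‖ ^ 2 = L)
include hL

theorem valency_bound (hL0 : 0 < L) {v : E} (hv : v ∈ V) {m : ℕ} (hm : 0 < m)
    (hreg : ∀ w ∈ nbr V v, (mis V v w).card = m) :
    4 * Module.finrank ℝ (vectorSpan ℝ (convexHull ℝ (V : Set E))) ≤ 3 * (nbr V v).card := by
  set P := convexHull ℝ (V : Set E) with hP
  let ι := {t // t ∈ nbr V v}
  let φ : (ι → ℝ) →ₗ[ℝ] E := ∑ t : ι, (LinearMap.proj t : (ι → ℝ) →ₗ[ℝ] ℝ).smulRight ((t : E) - v)
  have hφ : ∀ y : ι → ℝ, φ y = ∑ t : ι, y t • ((t : E) - v) := by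
    intro y
    simp [φ]
  have hrange : LinearMap.range φ = vectorSpan ℝ P := by
    rw [← span_nbr hV hv]
    apply le_antisymm
    · rintro _ ⟨y, rfl⟩
      rw [hφ]
      apply Submodule.sum_mem
      intro t _
      exact Submodule.smul_mem _ _ (Submodule.subset_span ⟨t, rfl⟩)
    · rw [Submodule.span_le]
      rintro _ ⟨t, rfl⟩
      refine ⟨Pi.single t 1, ?_⟩
      rw [hφ, Finset.sum_eq_single t]
      · simp
      · intro s _ hs
        rw [Pi.single_eq_of_ne hs, zero_smul]
      · intro h; exact absurd (Finset.mem_univ _) h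
  have hrank := LinearMap.finrank_range_add_finrank_ker φ
  rw [hrange, Module.finrank_fintype_fun_eq_card, Fintype.card_coe] at hrank
  set d := Module.finrank ℝ (vectorSpan ℝ P) with hd
  set k := Module.finrank ℝ (LinearMap.ker φ) with hk
  set n := (nbr V v).card with hn
  -- the relations
  have hex : ∀ w u : ι, ∃ y : E → ℝ, (u : E) ∈ mis V v w →
      (∑ t ∈ nbr V v, y t • (t - v) = 0 ∧ y w ≤ 0 ∧ y u ≤ 0 ∧ y w + y u = -1 ∧
      ∀ t ∈ nbr V v, t ≠ w → t ≠ u → 0 ≤ y t) := by
    intro w u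
    by_cases h : (u : E) ∈ mis V v w
    · have h' := mem_mis.1 h
      obtain ⟨y, hy⟩ := rel_of_missing hV hL hL0 w.2 u.2 h'.2.1 h'.2.2
      exact ⟨y, fun _ => hy⟩
    · exact ⟨0, fun h' => absurd h' h⟩
  choose Y hY using hex
  have hker : ∀ w u : ι, (u : E) ∈ mis V v w → (fun t : ι => Y w u t) ∈ LinearMap.ker φ := by
    intro w u h
    rw [LinearMap.mem_ker, hφ]
    rw [← (hY w u h).1]
    exact Finset.sum_coe_sort (nbr V v) (fun t => Y w u t • (t - v))
  have hnorm : ∀ w u : ι, (u : E) ∈ mis V v w → ∑ t : ι, |Y w u t| ≤ 2 := by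
    intro w u h
    obtain ⟨h1, h2, h3, h4, h5⟩ := hY w u h
    have hs := sum_zero hV hL hL0 h1
    have huw : (u : E) ≠ w := (mem_mis.1 h).2.1
    have hu' : (u : E) ∈ (nbr V v).erase w := Finset.mem_erase.2 ⟨huw, u.2⟩
    have e1 : ∑ t : ι, |Y w u t| = ∑ t ∈ nbr V v, |Y w u t| :=
      Finset.sum_coe_sort (nbr V v) (fun t => |Y w u t|)
    rw [e1, ← Finset.add_sum_erase _ _ w.2, ← Finset.add_sum_erase _ _ hu']
    rw [← Finset.add_sum_erase _ _ w.2, ← Finset.add_sum_erase _ _ hu'] at hs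
    have e2 : ∑ t ∈ ((nbr V v).erase w).erase u, |Y w u t| =
        ∑ t ∈ ((nbr V v).erase w).erase u, Y w u t := by
      apply Finset.sum_congr rfl
      intro t ht
      rw [Finset.mem_erase, Finset.mem_erase] at ht
      exact abs_of_nonneg (h5 t ht.2.2 ht.2.1 ht.1)
    rw [e2, abs_of_nonpos h2, abs_of_nonpos h3]
    linarith
  -- the matrix
  let M : ι → ι → Prop := fun w u => (u : E) ∈ mis V v w
  have hMsymm : ∀ w u : ι, M w u ↔ M u w := fun w u =>
    ⟨fun h => mis_swap w.2 h, fun h => mis_swap u.2 h⟩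
  have hMcard : ∀ w : ι, (Finset.univ.filter (fun u => M w u)).card = m := by
    intro w
    rw [← hreg w w.2]
    apply Finset.card_bij (fun (u : ι) _ => (u : E))
    · intro u hu
      exact (Finset.mem_filter.1 hu).2
    · intro u _ u' _ h
      exact Subtype.ext h
    · intro u hu
      refine ⟨⟨u, (mem_mis.1 hu).1⟩, ?_, rfl⟩
      rw [Finset.mem_filter]
      exact ⟨Finset.mem_univ _, hu⟩
  have hm0 : (0:ℝ) < m := by exact_mod_cast hm
  let w : ι → ι → ℝ := fun s t => (2 * (m:ℝ))⁻¹ * ∑ u ∈ Finset.univ.filter (fun u => M s u),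
    (Y s u t + Y u s t)
  have hwW : ∀ s, w s ∈ LinearMap.ker φ := by
    intro s
    have e : w s = (2 * (m:ℝ))⁻¹ • ∑ u ∈ Finset.univ.filter (fun u => M s u),
        ((fun t : ι => Y s u t) + (fun t : ι => Y u s t)) := by
      funext t
      simp only [w, Pi.smul_apply, Finset.sum_apply, Pi.add_apply, smul_eq_mul]
    rw [e]
    apply Submodule.smul_mem
    apply Submodule.sum_mem
    intro u hu
    have hu' := (Finset.mem_filter.1 hu).2
    exact Submodule.add_mem _ (hker s u hu') (hker u s ((hMsymm s u).1 hu'))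
  have hwn : ∀ s, ∑ t, |w s t| ≤ 2 := by
    intro s
    have e1 : ∀ t, |w s t| ≤ (2 * (m:ℝ))⁻¹ * ∑ u ∈ Finset.univ.filter (fun u => M s u),
        (|Y s u t| + |Y u s t|) := by
      intro t
      simp only [w]
      rw [abs_mul, abs_of_pos (by positivity : (0:ℝ) < (2 * (m:ℝ))⁻¹)]
      apply mul_le_mul_of_nonneg_left _ (by positivity)
      refine (Finset.abs_sum_le_sum_abs _ _).trans ?_
      exact Finset.sum_le_sum fun u _ => abs_add_le _ _
    calc ∑ t, |w s t| ≤ ∑ t : ι, (2 * (m:ℝ))⁻¹ * ∑ u ∈ Finset.univ.filter (fun u => M s u),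
          (|Y s u t| + |Y u s t|) := Finset.sum_le_sum fun t _ => e1 t
      _ = (2 * (m:ℝ))⁻¹ * ∑ u ∈ Finset.univ.filter (fun u => M s u),
          (∑ t : ι, |Y s u t| + ∑ t : ι, |Y u s t|) := by
        rw [← Finset.mul_sum, Finset.sum_comm]
        simp only [Finset.sum_add_distrib]
      _ ≤ (2 * (m:ℝ))⁻¹ * ∑ u ∈ Finset.univ.filter (fun u => M s u), (4:ℝ) := by
        apply mul_le_mul_of_nonneg_left _ (by positivity)
        apply Finset.sum_le_sum
        intro u hu
        have hu' := (Finset.mem_filter.1 hu).2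
        have k1 := hnorm s u hu'
        have k2 := hnorm u s ((hMsymm s u).1 hu')
        linarith
      _ = 2 := by
        rw [Finset.sum_const, hMcard, nsmul_eq_mul]
        field_simp
        norm_num
  have htr : ∑ s, w s s = - (n:ℝ) / 2 := by
    have e1 : ∑ s : ι, ∑ u ∈ Finset.univ.filter (fun u => M s u), Y u s s =
        ∑ s : ι, ∑ u ∈ Finset.univ.filter (fun u => M s u), Y s u u := by
      simp only [Finset.sum_filter]
      rw [Finset.sum_comm]
      apply Finset.sum_congr rfl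
      intro u _
      apply Finset.sum_congr rfl
      intro s _
      simp only [hMsymm s u]
    have e2 : ∑ s, w s s = (2 * (m:ℝ))⁻¹ * (∑ s : ι,
        ∑ u ∈ Finset.univ.filter (fun u => M s u), (Y s u s + Y s u u)) := by
      simp only [w]
      rw [← Finset.mul_sum]
      congr 1
      simp only [Finset.sum_add_distrib]
      rw [e1]
    have e3 : ∀ s : ι, ∑ u ∈ Finset.univ.filter (fun u => M s u), (Y s u s + Y s u u) =
        - (m:ℝ) := by
      intro s
      have : ∀ u ∈ Finset.univ.filter (fun u => M s u), (Y s u s + Y s u u) = (-1:ℝ) := by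
        intro u hu
        exact (hY s u (Finset.mem_filter.1 hu).2).2.2.2.1
      rw [Finset.sum_congr rfl this, Finset.sum_const, hMcard, nsmul_eq_mul]
      ring
    rw [e2, Finset.sum_congr rfl fun s _ => e3 s, Finset.sum_const, Finset.card_univ,
      Fintype.card_coe, nsmul_eq_mul, ← hn]
    field_simp
  have hfin := trace_bound (LinearMap.ker φ) w hwW (by norm_num : (0:ℝ) ≤ 2) hwn
  rw [htr, ← hk] at hfin
  have h1 : (n:ℝ) ≤ 4 * k := by
    have := (abs_le.1 hfin).1
    linarith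
  have h2 : n ≤ 4 * k := by exact_mod_cast h1
  omega

end

end Pool.Agent.Lib.MP_03766d_co
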