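import Mathlib

/-! Definitions for vertex-, edge- and arc-transitive polytopes. -/

namespace Pool.Agent.Lib.MP_03766d_co

open scoped InnerProductSpace

variable {E : Type*} [NormedAddCommGroup E] [InnerProductSpace ℝ E]

/-- `v`, `w` are distinct vertices of `P` and the segment `[v, w]` is a face of `P`. -/
def Edge (P : Set E) (v w : E) : Prop :=
  v ∈ P.extremePoints ℝ ∧ w ∈ P.extremePoints ℝ ∧ v ≠ w ∧ IsExtreme ℝ P (segment ℝ v w)

/-- the symmetry group of `P` is transitive on the vertices -/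
def VertexTransitive (P : Set E) : Prop :=
  ∀ v ∈ P.extremePoints ℝ, ∀ w ∈ P.extremePoints ℝ, ∃ g : E ≃ᵢ E, g '' P = P ∧ g v = w

/-- the symmetry group of `P` is transitive on the edges -/
def EdgeTransitive (P : Set E) : Prop :=
  ∀ v w v' w', Edge P v w → Edge P v' w' →
    ∃ g : E ≃ᵢ E, g '' P = P ∧ ((g v = v' ∧ g w = w') ∨ (g v = w' ∧ g w = v'))

/-- the symmetry group of `P` is transitive on the arcs (vertex, edge containing it) -/
def ArcTransitive (P : Set E) : Prop :=
  ∀ v w v' w', Edge P v w → Edge P v' w' → ∃ g : E ≃ᵢ E, g '' P = P ∧ g v = v' ∧ g w = w'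

/-- `P` has a two-dimensional face containing `v`, `w`, `u` -/
def InTwoFace (P : Set E) (v w u : E) : Prop :=
  ∃ F : Set E, Convex ℝ F ∧ IsExtreme ℝ P F ∧ v ∈ F ∧ w ∈ F ∧ u ∈ F ∧
    Module.finrank ℝ (vectorSpan ℝ F) = 2

/-- mirror image of `x` in the perpendicular bisector of `v`, `w` -/
noncomputable def mirror (v w x : E) : E :=
  x - (2 * ⟪x - v, w - v⟫_ℝ / ‖w - v‖ ^ 2 - 1) • (w - v)

end Pool.Agent.Lib.MP_03766d_co
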