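import Pool.Agent.Lib.MP_03766d_co.Cone

/-! The greedy step: distances to a fixed vertex drop by the squared edge length. -/

namespace Pool.Agent.Lib.MP_03766d_co

open scoped InnerProductSpace BigOperators Classical

variable {E : Type*} [NormedAddCommGroup E] [InnerProductSpace ℝ E]

theorem edge_mem_left {V : Finset E} {v w : E} (h : Edge (convexHull ℝ (V : Set E)) v w) :
    v ∈ V := by
  simpa using extremePoints_convexHull_subset h.1

theorem edge_mem_right {V : Finset E} {v w : E} (h : Edge (convexHull ℝ (V : Set E)) v w) :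
    w ∈ V := edge_mem_left h.symm

section
variable {V : Finset E} {c : E} {R L : ℝ}
  (hV : ∀ x ∈ V, ‖x - c‖ ^ 2 = R)
  (hL : ∀ v w, Edge (convexHull ℝ (V : Set E)) v w → ‖w - v‖ ^ 2 = L)
include hV hL

/-- greedy step -/
theorem greedy {v u : E} (hv : v ∈ V) (hu : u ∈ V) (huv : u ≠ v) :
    ∃ w, Edge (convexHull ℝ (V : Set E)) v w ∧ ‖u - w‖ ^ 2 ≤ ‖u - v‖ ^ 2 - L := by
  obtain ⟨T, hT, hcone⟩ := exists_edge_cone hV hv
  obtain ⟨a, ha, has⟩ := hcone u (subset_convexHull ℝ _ (by simpa using hu))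
  by_contra hcon
  push Not at hcon
  have hpos : 0 < ‖u - v‖ ^ 2 := by
    have : u - v ≠ 0 := sub_ne_zero.2 huv
    positivity
  have h1 : ‖u - v‖ ^ 2 = ∑ t ∈ T, a t * L := by
    have h2 := sphere_inner (hV v hv) (hV u hu)
    have h3 : 2 * ⟪u - v, v - c⟫_ℝ = ∑ t ∈ T, a t * (- L) := by
      rw [has, sum_inner, Finset.mul_sum]
      apply Finset.sum_congr rfl
      intro t ht
      have h4 := sphere_inner (hV v hv) (hV t (hT t ht).1)
      rw [hL v t (hT t ht).2] at h4
      rw [inner_smul_left, RCLike.conj_to_real]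
      linear_combination (a t) * h4
    rw [h3] at h2
    have h5 : ∑ t ∈ T, a t * (- L) = - ∑ t ∈ T, a t * L := by
      rw [← Finset.sum_neg_distrib]; apply Finset.sum_congr rfl; intros; ring
    linarith
  have h2 : ‖u - v‖ ^ 2 = ∑ t ∈ T, a t * ⟪t - v, u - v⟫_ℝ := by
    rw [← real_inner_self_eq_norm_sq]
    conv_lhs => rw [has]
    rw [sum_inner]
    apply Finset.sum_congr rfl
    intro t _
    rw [inner_smul_left, RCLike.conj_to_real, has]
  have hlt : ∀ t ∈ T, ⟪t - v, u - v⟫_ℝ < L := by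
    intro t ht
    have h3 := hcon t (hT t ht).2
    have h4 : u - t = (u - v) - (t - v) := by abel
    rw [h4, norm_sub_sq_real (u - v) (t - v), hL v t (hT t ht).2, real_inner_comm] at h3
    linarith
  obtain ⟨t₀, ht₀, hat₀⟩ : ∃ t ∈ T, 0 < a t := by
    by_contra hno
    push Not at hno
    have : ∑ t ∈ T, a t * L = 0 := Finset.sum_eq_zero fun t ht => by
      have := hno t ht; have h7 := ha t
      have : a t = 0 := le_antisymm this h7
      rw [this, zero_mul]
    linarith
  have h3 : ∑ t ∈ T, a t * ⟪t - v, u - v⟫_ℝ < ∑ t ∈ T, a t * L := by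
    apply Finset.sum_lt_sum
    · intro t ht
      exact mul_le_mul_of_nonneg_left (hlt t ht).le (ha t)
    · exact ⟨t₀, ht₀, mul_lt_mul_of_pos_left (hlt t₀ ht₀) hat₀⟩
  linarith

theorem dist_ge {v u : E} (hv : v ∈ V) (hu : u ∈ V) (huv : u ≠ v) : L ≤ ‖u - v‖ ^ 2 := by
  obtain ⟨w, _, h⟩ := greedy hV hL hv hu huv
  have := sq_nonneg ‖u - w‖
  linarith

theorem dist_ge_two {v u : E} (hv : v ∈ V) (hu : u ∈ V) (huv : u ≠ v)
    (hne : ¬ Edge (convexHull ℝ (V : Set E)) v u) : 2 * L ≤ ‖u - v‖ ^ 2 := by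
  obtain ⟨w, hw, h⟩ := greedy hV hL hv hu huv
  have huw : u ≠ w := fun h => hne (h ▸ hw)
  have := dist_ge hV hL (edge_mem_right hw) hu huw
  linarith

theorem edge_of_dist {v u : E} (hv : v ∈ V) (hu : u ∈ V) (h : ‖u - v‖ ^ 2 = L) (hL0 : 0 < L) :
    Edge (convexHull ℝ (V : Set E)) v u := by
  have huv : u ≠ v := by
    rintro rfl
    simp at h
    linarith
  by_contra hne
  have := dist_ge_two hV hL hv hu huv hne
  linarith

/-- the edge graph is connected, in the form of an induction principle -/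
theorem connected (hL0 : 0 < L) {A : E → Prop} {v : E} (hv : v ∈ V) (hAv : A v)
    (hstep : ∀ x y, A x → Edge (convexHull ℝ (V : Set E)) x y → A y) {u : E} (hu : u ∈ V) :
    A u := by
  by_contra hAu
  obtain ⟨x, hx, hmin⟩ := Finset.exists_min_image (V.filter A) (fun x => ‖u - x‖ ^ 2)
    ⟨v, by simp [hv, hAv]⟩
  rw [Finset.mem_filter] at hx
  have hux : u ≠ x := fun h => hAu (h ▸ hx.2)
  obtain ⟨w, hw, h⟩ := greedy hV hL hx.1 hu hux
  have hwA := hstep x w hx.2 hw
  have := hmin w (by rw [Finset.mem_filter]; exact ⟨edge_mem_right hw, hwA⟩)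
  linarith

end

end Pool.Agent.Lib.MP_03766d_co
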