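import Pool.Agent.Lib.MP_03766d_co.TwoFace

/-! Linearly independent edge vectors: all pairs of edges span two-dimensional faces. -/

namespace Pool.Agent.Lib.MP_03766d_co

open scoped InnerProductSpace BigOperators Classical

variable {E : Type*} [NormedAddCommGroup E] [InnerProductSpace ℝ E]

/-- the neighbours of `v` -/
noncomputable def nbr (V : Finset E) (v : E) : Finset E :=
  V.filter (fun t => Edge (convexHull ℝ (V : Set E)) v t)

theorem mem_nbr {V : Finset E} {v t : E} :
    t ∈ nbr V v ↔ Edge (convexHull ℝ (V : Set E)) v t := by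
  rw [nbr, Finset.mem_filter]
  exact ⟨fun h => h.2, fun h => ⟨edge_mem_right h, h⟩⟩

theorem inCone_mono {v : E} {T N : Finset E} (h : T ⊆ N) {x : E} (hx : InCone v T x) :
    InCone v N x := by
  obtain ⟨a, ha, has⟩ := hx
  refine ⟨fun t => if t ∈ T then a t else 0, fun t => by
    dsimp only; split_ifs; exacts [ha t, le_rfl], ?_⟩
  rw [has, ← Finset.sum_subset h]
  · apply Finset.sum_congr rfl
    intro t ht
    simp only [if_pos ht]
  · intro t _ ht
    simp only [if_neg ht, zero_smul]

/-- the edge vectors at `v` are linearly independent -/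
def Indep (v : E) (N : Finset E) : Prop :=
  ∀ b : E → ℝ, ∑ t ∈ N, b t • (t - v) = 0 → ∀ t ∈ N, b t = 0

section
variable {V : Finset E} {c : E} {R L : ℝ}
  (hV : ∀ x ∈ V, ‖x - c‖ ^ 2 = R)
include hV

theorem cone_nbr {v : E} (hv : v ∈ V) {x : E} (hx : x ∈ convexHull ℝ (V : Set E)) :
    InCone v (nbr V v) x := by
  obtain ⟨T, hT, hcone⟩ := exists_edge_cone hV hv
  exact inCone_mono (fun t ht => mem_nbr.2 (hT t ht).2) (hcone x hx)

theorem face_of_indep {v w u : E} (hv : v ∈ V) (hw : w ∈ nbr V v) (hu : u ∈ nbr V v)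
    (huw : u ≠ w) (hI : Indep v (nbr V v)) :
    ∃ F : Set E, Convex ℝ F ∧ IsExtreme ℝ (convexHull ℝ (V : Set E)) F ∧ w ∈ F ∧ u ∈ F ∧
      ∀ x ∈ F, ∃ r s : ℝ, x - v = r • (w - v) + s • (u - v) := by
  set P := convexHull ℝ (V : Set E) with hP
  have hPc : Convex ℝ P := convex_convexHull ℝ _
  have hwP : w ∈ P := subset_convexHull ℝ _ (by simpa using edge_mem_right (mem_nbr.1 hw))
  have huP : u ∈ P := subset_convexHull ℝ _ (by simpa using edge_mem_right (mem_nbr.1 hu))
  refine ⟨{x | x ∈ P ∧ ∃ r s : ℝ, x - v = r • (w - v) + s • (u - v)}, ?_, ⟨fun x hx => hx.1, ?_⟩,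
    ⟨hwP, 1, 0, by simp⟩, ⟨huP, 0, 1, by simp⟩, fun x hx => hx.2⟩
  · intro x hx y hy α β hα hβ hαβ
    refine ⟨hPc hx.1 hy.1 hα hβ hαβ, ?_⟩
    obtain ⟨r, s, h1⟩ := hx.2
    obtain ⟨r', s', h2⟩ := hy.2
    refine ⟨α * r + β * r', α * s + β * s', ?_⟩
    have h3 : α • x + β • y - v = α • (x - v) + β • (y - v) := by
      have : v = (α + β) • v := by rw [hαβ, one_smul]
      nth_rewrite 1 [this]
      module
    rw [h3, h1, h2]
    module
  · intro x₁ h₁ x₂ h₂ z hz hzo
    obtain ⟨α, β, hα, hβ, hαβ, hz12⟩ := hzo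
    obtain ⟨a, ha, has⟩ := cone_nbr hV hv h₁
    obtain ⟨b, hb, hbs⟩ := cone_nbr hV hv h₂
    obtain ⟨_, r, s, hrs⟩ := hz
    refine ⟨h₁, a w, a u, ?_⟩
    have h3 : z - v = α • (x₁ - v) + β • (x₂ - v) := by
      rw [← hz12]
      have : v = (α + β) • v := by rw [hαβ, one_smul]
      nth_rewrite 1 [this]
      module
    have h4 : ∑ t ∈ nbr V v, (α * a t + β * b t - (if t = w then r else 0) -
        (if t = u then s else 0)) • (t - v) = 0 := by
      have e1 : ∑ t ∈ nbr V v, (if t = w then r else 0) • (t - v) = r • (w - v) := by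
        rw [Finset.sum_eq_single w]
        · simp
        · intro t _ ht
          rw [if_neg ht, zero_smul]
        · intro h; exact absurd hw h
      have e2 : ∑ t ∈ nbr V v, (if t = u then s else 0) • (t - v) = s • (u - v) := by
        rw [Finset.sum_eq_single u]
        · simp
        · intro t _ ht
          rw [if_neg ht, zero_smul]
        · intro h; exact absurd hu h
      simp only [sub_smul _ _ (_ - v), Finset.sum_sub_distrib]
      rw [e1, e2]
      have e3 : ∑ t ∈ nbr V v, (α * a t + β * b t) • (t - v) = z - v := by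
        rw [h3, has, hbs, Finset.smul_sum, Finset.smul_sum, ← Finset.sum_add_distrib]
        apply Finset.sum_congr rfl
        intro t _
        rw [add_smul, mul_smul, mul_smul]
      rw [e3, hrs]
      module
    have h5 := hI _ h4
    have h6 : ∀ t ∈ nbr V v, t ≠ w → t ≠ u → a t = 0 := by
      intro t ht htw htu
      have := h5 t ht
      rw [if_neg htw, if_neg htu] at this
      have h7 : 0 ≤ α * a t := mul_nonneg hα.le (ha t)
      have h8 : 0 ≤ β * b t := mul_nonneg hβ.le (hb t)
      have h9 : α * a t = 0 := by linarith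
      rcases mul_eq_zero.1 h9 with h | h
      · exact absurd h hα.ne'
      · exact h
    rw [has, ← Finset.add_sum_erase _ _ hw,
      ← Finset.add_sum_erase _ _ (Finset.mem_erase.2 ⟨huw, hu⟩), Finset.sum_eq_zero, add_zero]
    intro t ht
    rw [Finset.mem_erase, Finset.mem_erase] at ht
    rw [h6 t ht.2.2 ht.2.1 ht.1, zero_smul]

/-- pairwise non-acute edge vectors are linearly independent -/
theorem indep_of_obtuse {v : E} (hv : v ∈ V)
    (hob : ∀ t ∈ nbr V v, ∀ t' ∈ nbr V v, t ≠ t' → ⟪t - v, t' - v⟫_ℝ ≤ 0) :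
    Indep v (nbr V v) := by
  have hneg : ∀ t ∈ nbr V v, ⟪t - v, v - c⟫_ℝ < 0 := fun t ht => by
    have hE := mem_nbr.1 ht
    have h1 := sphere_inner (hV v hv) (hV t (edge_mem_right hE))
    have h2 : 0 < ‖t - v‖ ^ 2 := by
      have : t - v ≠ 0 := sub_ne_zero.2 hE.2.2.1.symm
      positivity
    linarith
  have main : ∀ b : E → ℝ, ∑ t ∈ nbr V v, b t • (t - v) = 0 → ∀ t ∈ nbr V v, b t ≤ 0 := by
    intro b hb t₀ ht₀
    by_contra hpos
    push Not at hpos
    set N₁ := (nbr V v).filter (fun t => 0 < b t) with hN₁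
    set N₂ := (nbr V v).filter (fun t => ¬ 0 < b t) with hN₂
    have hsplit : ∑ t ∈ N₁, b t • (t - v) + ∑ t ∈ N₂, b t • (t - v) = 0 := by
      rw [hN₁, hN₂, Finset.sum_filter_add_sum_filter_not, hb]
    set y := ∑ t ∈ N₁, b t • (t - v) with hy
    have hy2 : y = ∑ t ∈ N₂, (- b t) • (t - v) := by
      have : ∑ t ∈ N₂, (- b t) • (t - v) = - ∑ t ∈ N₂, b t • (t - v) := by
        rw [← Finset.sum_neg_distrib]
        apply Finset.sum_congr rfl
        intro t _
        rw [neg_smul]
      rw [this]
      exact eq_neg_of_add_eq_zero_left hsplit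
    have hyy : ⟪y, y⟫_ℝ ≤ 0 := by
      nth_rewrite 2 [hy2]
      rw [hy, sum_inner]
      apply Finset.sum_nonpos
      intro t ht
      rw [inner_sum]
      apply Finset.sum_nonpos
      intro t' ht'
      rw [Finset.mem_filter] at ht ht'
      have htt' : t ≠ t' := by
        rintro rfl
        exact ht'.2 ht.2
      rw [inner_smul_left, inner_smul_right]
      simp only [RCLike.conj_to_real]
      have h1 := hob t ht.1 t' ht'.1 htt'
      have h2 : 0 ≤ - b t' := by
        have := ht'.2
        push Not at this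
        linarith
      have h3 : 0 ≤ b t * (- b t') := mul_nonneg ht.2.le h2
      have h4 : b t * (- b t' * ⟪t - v, t' - v⟫_ℝ) = (b t * (- b t')) * ⟪t - v, t' - v⟫_ℝ := by
        ring
      rw [h4]
      exact mul_nonpos_of_nonneg_of_nonpos h3 h1
    have hy0 : y = 0 :=
      inner_self_eq_zero.1 (le_antisymm hyy (real_inner_self_nonneg (x := y)))
    have h5 : ⟪y, v - c⟫_ℝ < 0 := by
      rw [hy, sum_inner]
      apply Finset.sum_neg
      · intro t ht
        rw [Finset.mem_filter] at ht
        rw [inner_smul_left, RCLike.conj_to_real]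
        exact mul_neg_of_pos_of_neg ht.2 (hneg t ht.1)
      · exact ⟨t₀, by rw [hN₁, Finset.mem_filter]; exact ⟨ht₀, hpos⟩⟩
    rw [hy0, inner_zero_left] at h5
    exact lt_irrefl _ h5
  intro b hb t ht
  apply le_antisymm (main b hb t ht)
  have h := main (fun t => - b t) (by
    simp only [neg_smul, Finset.sum_neg_distrib, hb, neg_zero]) t ht
  linarith

/-- a simple vertex has linearly independent edge vectors -/
theorem indep_of_simple [FiniteDimensional ℝ E] {v : E} (hv : v ∈ V)
    (h : (nbr V v).card = Module.finrank ℝ (vectorSpan ℝ (convexHull ℝ (V : Set E)))) :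
    Indep v (nbr V v) := by
  set P := convexHull ℝ (V : Set E) with hP
  have hvP : v ∈ P := subset_convexHull ℝ _ (by simpa using hv)
  have hspan : Submodule.span ℝ (Set.range (fun t : (nbr V v) => (t : E) - v)) =
      vectorSpan ℝ P := by
    apply le_antisymm
    · rw [Submodule.span_le]
      rintro _ ⟨t, rfl⟩
      have : (t : E) ∈ P := subset_convexHull ℝ _ (by
        simpa using edge_mem_right (mem_nbr.1 t.2))
      exact vsub_mem_vectorSpan ℝ this hvP
    · rw [vectorSpan_eq_span_vsub_set_right ℝ hvP, Submodule.span_le]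
      rintro _ ⟨x, hx, rfl⟩
      obtain ⟨a, _, has⟩ := cone_nbr hV hv hx
      simp only [vsub_eq_sub, SetLike.mem_coe]
      rw [has]
      apply Submodule.sum_mem
      intro t ht
      apply Submodule.smul_mem
      exact Submodule.subset_span ⟨⟨t, ht⟩, rfl⟩
  have hli : LinearIndependent ℝ (fun t : (nbr V v) => (t : E) - v) := by
    rw [linearIndependent_iff_card_eq_finrank_span, Set.finrank, hspan, ← h]
    simp
  rw [Fintype.linearIndependent_iff] at hli
  intro b hb t ht
  have h1 := hli (fun t => b t) (by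
    rw [← hb]
    exact Finset.sum_coe_sort (nbr V v) (fun t => b t • (t - v)))
  exact h1 ⟨t, ht⟩

end

end Pool.Agent.Lib.MP_03766d_co
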