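import Pool.Agent.Lib.MP_03766d_co.Bisector
import Pool.Agent.Lib.MP_03766d_co.Greedy

/-! Isometries of a polytope preserve edges and two-dimensional faces. -/

namespace Pool.Agent.Lib.MP_03766d_co

open scoped InnerProductSpace BigOperators

variable {E : Type*} [NormedAddCommGroup E] [InnerProductSpace ℝ E]

theorem iso_coe (g : E ≃ᵢ E) (p : E) : g.toRealAffineIsometryEquiv p = g p := by
  rw [IsometryEquiv.coeFn_toRealAffineIsometryEquiv]

theorem iso_sub (g : E ≃ᵢ E) (p q : E) :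
    g p - g q = g.toRealAffineIsometryEquiv.linearIsometryEquiv (p - q) := by
  have := g.toRealAffineIsometryEquiv.map_vsub p q
  rw [vsub_eq_sub, vsub_eq_sub, iso_coe, iso_coe] at this
  exact this.symm

theorem iso_comb (g : E ≃ᵢ E) {a b : ℝ} (hab : a + b = 1) (x y : E) :
    g (a • x + b • y) = a • g x + b • g y := by
  set z := a • x + b • y with hz
  have h1 : a • (g z - g x) + b • (g z - g y) = 0 := by
    rw [iso_sub, iso_sub, ← map_smul, ← map_smul, ← map_add]
    have : a • (z - x) + b • (z - y) = 0 := by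
      have : a • (z - x) + b • (z - y) = (a + b) • z - (a • x + b • y) := by module
      rw [this, hab, one_smul, hz, sub_self]
    rw [this, map_zero]
  have h2 : a • (g z - g x) + b • (g z - g y) = (a + b) • g z - (a • g x + b • g y) := by module
  rw [h2, hab, one_smul, sub_eq_zero] at h1
  exact h1

theorem iso_openSegment (g : E ≃ᵢ E) {x y z : E} (h : z ∈ openSegment ℝ x y) :
    g z ∈ openSegment ℝ (g x) (g y) := by
  obtain ⟨a, b, ha, hb, hab, rfl⟩ := h
  exact ⟨a, b, ha, hb, hab, (iso_comb g hab x y).symm⟩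

theorem iso_segment (g : E ≃ᵢ E) (x y : E) : g '' segment ℝ x y = segment ℝ (g x) (g y) := by
  ext z
  constructor
  · rintro ⟨z, ⟨a, b, ha, hb, hab, rfl⟩, rfl⟩
    exact ⟨a, b, ha, hb, hab, (iso_comb g hab x y).symm⟩
  · rintro ⟨a, b, ha, hb, hab, rfl⟩
    exact ⟨_, ⟨a, b, ha, hb, hab, rfl⟩, iso_comb g hab x y⟩

theorem iso_extreme (g : E ≃ᵢ E) {P S : Set E} (h : IsExtreme ℝ P S) :
    IsExtreme ℝ (g '' P) (g '' S) := by
  refine ⟨Set.image_mono h.subset, ?_⟩
  rintro _ ⟨x₁, h₁, rfl⟩ _ ⟨x₂, h₂, rfl⟩ _ ⟨z, hz, rfl⟩ hzo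
  have h1 := iso_openSegment g.symm hzo
  simp only [IsometryEquiv.symm_apply_apply] at h1
  exact ⟨x₁, h.left_mem_of_mem_openSegment h₁ h₂ hz h1, rfl⟩

theorem iso_symm_image (g : E ≃ᵢ E) {P : Set E} (h : g '' P = P) : g.symm '' P = P := by
  conv_lhs => rw [← h]
  rw [Set.image_image]
  simp

theorem iso_extremePoints (g : E ≃ᵢ E) {P : Set E} (h : g '' P = P) {x : E}
    (hx : x ∈ P.extremePoints ℝ) : g x ∈ P.extremePoints ℝ := by
  rw [← isExtreme_singleton] at hx ⊢
  have := iso_extreme g hx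
  rwa [h, Set.image_singleton] at this

theorem iso_edge (g : E ≃ᵢ E) {P : Set E} (h : g '' P = P) {v w : E} (hvw : Edge P v w) :
    Edge P (g v) (g w) := by
  refine ⟨iso_extremePoints g h hvw.1, iso_extremePoints g h hvw.2.1,
    fun hh => hvw.2.2.1 (g.injective hh), ?_⟩
  have := iso_extreme g hvw.2.2.2
  rwa [h, iso_segment] at this

theorem iso_vectorSpan (g : E ≃ᵢ E) (F : Set E) :
    Module.finrank ℝ (vectorSpan ℝ (g '' F)) = Module.finrank ℝ (vectorSpan ℝ F) := by
  have h1 := AffineMap.map_vectorSpan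
    (f := (g.toRealAffineIsometryEquiv.toAffineEquiv : E →ᵃ[ℝ] E)) (s := F)
  have h2 : ((g.toRealAffineIsometryEquiv.toAffineEquiv : E →ᵃ[ℝ] E) : E → E) = g := by
    funext p
    exact iso_coe g p
  rw [h2] at h1
  rw [← h1]
  exact LinearEquiv.finrank_map_eq g.toRealAffineIsometryEquiv.toAffineEquiv.linear _

theorem iso_twoFace (g : E ≃ᵢ E) {P : Set E} (h : g '' P = P) {v w u : E}
    (hF : InTwoFace P v w u) : InTwoFace P (g v) (g w) (g u) := by
  obtain ⟨F, h1, h2, h3, h4, h5, h6⟩ := hF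
  refine ⟨g '' F, ?_, ?_, ⟨v, h3, rfl⟩, ⟨w, h4, rfl⟩, ⟨u, h5, rfl⟩, ?_⟩
  · rintro _ ⟨x, hx, rfl⟩ _ ⟨y, hy, rfl⟩ a b ha hb hab
    exact ⟨_, h1 hx hy ha hb hab, iso_comb g hab x y⟩
  · have := iso_extreme g h2
    rwa [h] at this
  · rw [iso_vectorSpan, h6]

/-- an isometry that permutes a finite set fixes its centroid -/
theorem iso_centroid {V : Finset E} (hne : V.Nonempty) :
    ∃ c : E, ∀ g : E ≃ᵢ E, (∀ x ∈ V, g x ∈ V) → g c = c := by
  set n : ℝ := (V.card : ℝ) with hn
  have hn0 : n ≠ 0 := by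
    rw [hn]
    exact_mod_cast (Finset.card_pos.2 hne).ne'
  refine ⟨n⁻¹ • ∑ x ∈ V, x, fun g hg => ?_⟩
  set c := n⁻¹ • ∑ x ∈ V, x with hc
  have hnc : n • c = ∑ x ∈ V, x := by
    rw [hc, smul_smul, mul_inv_cancel₀ hn0, one_smul]
  have h1 : ∑ x ∈ V, (x - c) = 0 := by
    rw [Finset.sum_sub_distrib, Finset.sum_const, ← Nat.cast_smul_eq_nsmul ℝ, ← hn, hnc, sub_self]
  have h2 : ∑ x ∈ V, (g x - g c) = 0 := by
    simp only [iso_sub]
    rw [← map_sum, h1, map_zero]
  have h3 : ∑ x ∈ V, g x = ∑ x ∈ V, x := by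
    apply Finset.sum_bij (fun x _ => g x)
    · exact fun x hx => hg x hx
    · intro x _ y _ h
      exact g.injective h
    · intro y hy
      have hinj : Set.InjOn g (V : Set E) := g.injective.injOn
      have hsurj := Finset.surjOn_of_injOn_of_card_le (fun x => g x) hg hinj le_rfl
      obtain ⟨x, hx, hxy⟩ := hsurj hy
      exact ⟨x, by simpa using hx, hxy⟩
    · intro x _; rfl
  rw [Finset.sum_sub_distrib, Finset.sum_const, ← Nat.cast_smul_eq_nsmul ℝ, ← hn, h3,
    ← hnc, ← smul_sub] at h2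
  rcases smul_eq_zero.1 h2 with h | h
  · exact absurd h hn0
  · exact (sub_eq_zero.1 h).symm

/-- the vertices of a polytope -/
theorem exists_vertices [FiniteDimensional ℝ E] {S : Set E} (hS : S.Finite) :
    ∃ V : Finset E, (convexHull ℝ S).extremePoints ℝ = V ∧
      convexHull ℝ (V : Set E) = convexHull ℝ S := by
  have hfin : ((convexHull ℝ S).extremePoints ℝ).Finite :=
    hS.subset extremePoints_convexHull_subset
  refine ⟨hfin.toFinset, by simp, ?_⟩
  have h1 := closure_convexHull_extremePoints (hS.isCompact_convexHull ℝ) (convex_convexHull ℝ S)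
  rw [(hfin.isClosed_convexHull ℝ).closure_eq] at h1
  simpa using h1

end Pool.Agent.Lib.MP_03766d_co
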