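import Pool.Agent.Lib.MP_03766d_co.Count
import Pool.Agent.Lib.MP_03766d_co.Sym

/-! The reflection theorem for vertex- and edge-transitive polytopes. -/

namespace Pool.Agent.Lib.MP_03766d_co

open scoped InnerProductSpace BigOperators Classical

variable {E : Type*} [NormedAddCommGroup E] [InnerProductSpace ℝ E]

/-- the data of a vertex- and edge-transitive polytope with the vertex set `V` -/
structure Trans (V : Finset E) (c : E) (R L : ℝ) : Prop where
  ext : ∀ x ∈ (convexHull ℝ (V : Set E)).extremePoints ℝ, x ∈ V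
  vt : VertexTransitive (convexHull ℝ (V : Set E))
  et : EdgeTransitive (convexHull ℝ (V : Set E))
  fix : ∀ g : E ≃ᵢ E, g '' convexHull ℝ (V : Set E) = convexHull ℝ (V : Set E) → g c = c
  sph : ∀ x ∈ V, ‖x - c‖ ^ 2 = R
  len : ∀ v w, Edge (convexHull ℝ (V : Set E)) v w → ‖w - v‖ ^ 2 = L
  pos : 0 < L

/-- all mirror images of the neighbours of `v` are vertices -/
def Good (V : Finset E) (v w : E) : Prop :=
  Edge (convexHull ℝ (V : Set E)) v w ∧ ∀ u ∈ nbr V v, mirror v w u ∈ V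

namespace Trans

variable {V : Finset E} {c : E} {R L : ℝ} (h : Trans V c R L)
include h

theorem iso_mem {g : E ≃ᵢ E} (hg : g '' convexHull ℝ (V : Set E) = convexHull ℝ (V : Set E))
    {x : E} (hx : x ∈ V) : g x ∈ V :=
  h.ext _ (iso_extremePoints g hg (mem_ext h.sph hx))

theorem iso_nbr {g : E ≃ᵢ E} (hg : g '' convexHull ℝ (V : Set E) = convexHull ℝ (V : Set E))
    {v u : E} (hu : u ∈ nbr V v) : g u ∈ nbr V (g v) :=
  mem_nbr.2 (iso_edge g hg (mem_nbr.1 hu))

theorem card_le {v w : E} (hv : v ∈ V) (hw : w ∈ V) : (nbr V v).card ≤ (nbr V w).card := by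
  obtain ⟨g, hg, rfl⟩ := h.vt v (mem_ext h.sph hv) w (mem_ext h.sph hw)
  exact Finset.card_le_card_of_injOn g (fun u hu => h.iso_nbr hg hu) g.injective.injOn

theorem card_eq {v w : E} (hv : v ∈ V) (hw : w ∈ V) : (nbr V v).card = (nbr V w).card :=
  le_antisymm (h.card_le hv hw) (h.card_le hw hv)

theorem mirror_nbr {v w u : E} (hvw : Edge (convexHull ℝ (V : Set E)) v w) (hu : u ∈ nbr V v)
    (hm : mirror v w u ∈ V) : mirror v w u ∈ nbr V w := by
  rw [mem_nbr]
  apply edge_of_dist h.sph h.len (edge_mem_right hvw) hm _ h.pos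
  have h1 := norm_sg_sub v w u v
  rw [sg_left] at h1
  rw [h1, h.len v u (mem_nbr.1 hu)]

theorem mirror_inj {v w x y : E} (hvw : v ≠ w) (hxy : mirror v w x = mirror v w y) : x = y := by
  have := congrArg (mirror v w) hxy
  rwa [sg_sg hvw, sg_sg hvw] at this

theorem good_symm {v w : E} (hG : Good V v w) : Good V w v := by
  obtain ⟨hvw, hG⟩ := hG
  refine ⟨hvw.symm, fun u hu => ?_⟩
  have hsurj := Finset.surjOn_of_injOn_of_card_le (s := nbr V v) (t := nbr V w) (mirror v w)
    (fun u hu => h.mirror_nbr hvw (by simpa using hu) (hG u (by simpa using hu)))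
    (fun x _ y _ hxy => h.mirror_inj hvw.2.2.1 hxy)
    (h.card_le (edge_mem_right hvw) (edge_mem_left hvw))
  obtain ⟨x, hx, hxu⟩ := hsurj (show u ∈ (nbr V w : Set E) by simpa using hu)
  rw [sg_comm hvw.2.2.1, ← hxu, sg_sg hvw.2.2.1]
  exact edge_mem_right (mem_nbr.1 (by simpa using hx))

theorem good_iso {g : E ≃ᵢ E} (hg : g '' convexHull ℝ (V : Set E) = convexHull ℝ (V : Set E))
    {v w : E} (hG : Good V v w) : Good V (g v) (g w) := by
  refine ⟨iso_edge g hg hG.1, fun u hu => ?_⟩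
  have h1 := h.iso_nbr (iso_symm_image g hg) hu
  rw [IsometryEquiv.symm_apply_apply] at h1
  have h2 := h.iso_mem hg (hG.2 _ h1)
  rwa [sg_map, IsometryEquiv.apply_symm_apply] at h2

theorem good_all {v w : E} (hG : Good V v w) {v' w' : E}
    (hvw : Edge (convexHull ℝ (V : Set E)) v' w') : Good V v' w' := by
  obtain ⟨g, hg, ⟨rfl, rfl⟩ | ⟨rfl, rfl⟩⟩ := h.et v w v' w' hG.1 hvw
  · exact h.good_iso hg hG
  · exact h.good_symm (h.good_iso hg hG)

/-- all edge reflections are symmetries -/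
theorem mirror_image {v w : E} (hG : Good V v w) {v' w' : E}
    (hvw : Edge (convexHull ℝ (V : Set E)) v' w') :
    mirror v' w' '' convexHull ℝ (V : Set E) = convexHull ℝ (V : Set E) := by
  have hne := hvw.2.2.1
  have hR : ∀ v w u, Edge (convexHull ℝ (V : Set E)) v w → Edge (convexHull ℝ (V : Set E)) v u →
      mirror v w u ∈ V := fun v₁ w₁ u h1 h2 => (h.good_all hG h1).2 u (mem_nbr.2 h2)
  have hmV : ∀ x ∈ V, mirror v' w' x ∈ V := fun x hx =>
    propagate h.sph h.len h.pos hR hvw hx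
  have hsub : mirror v' w' '' convexHull ℝ (V : Set E) ⊆ convexHull ℝ (V : Set E) := by
    rintro _ ⟨x, hx, rfl⟩
    have hc : Convex ℝ {x : E | mirror v' w' x ∈ convexHull ℝ (V : Set E)} := by
      intro x hx y hy a b ha hb hab
      have e := iso_comb (sgE hne) hab x y
      show sgE hne (a • x + b • y) ∈ convexHull ℝ (V : Set E)
      rw [e]
      exact convex_convexHull ℝ _ hx hy ha hb hab
    have hmin : convexHull ℝ (V : Set E) ⊆
        {x : E | mirror v' w' x ∈ convexHull ℝ (V : Set E)} := by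
      apply convexHull_min _ hc
      intro y hy
      have h1 : mirror v' w' y ∈ (V : Set E) := hmV y hy
      exact subset_convexHull ℝ _ h1
    exact hmin hx
  refine hsub.antisymm fun x hx => ⟨mirror v' w' x, hsub ⟨x, hx, rfl⟩, sg_sg hne x⟩

theorem arc {v w : E} (hG : Good V v w) : ArcTransitive (convexHull ℝ (V : Set E)) := by
  intro v₁ w₁ v₂ w₂ h1 h2
  obtain ⟨g, hg, ⟨e1, e2⟩ | ⟨e1, e2⟩⟩ := h.et v₁ w₁ v₂ w₂ h1 h2
  · exact ⟨g, hg, e1, e2⟩
  · have hne := h2.2.2.1
    refine ⟨g.trans (sgE hne), ?_, ?_, ?_⟩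
    · have : ((g.trans (sgE hne) : E ≃ᵢ E) : E → E) = mirror v₂ w₂ ∘ g := rfl
      rw [this, Set.image_comp, hg]
      exact h.mirror_image hG h2
    · show mirror v₂ w₂ (g v₁) = v₂
      rw [e1, sg_right hne]
    · show mirror v₂ w₂ (g w₁) = w₂
      rw [e2, sg_left]

/-- points of the polytope on the sphere are vertices -/
theorem mem_of_sphere {x : E} (hx : x ∈ convexHull ℝ (V : Set E)) (hs : ‖x - c‖ ^ 2 = R) :
    x ∈ V := by
  apply h.ext
  rw [mem_extremePoints_iff_left]
  refine ⟨hx, ?_⟩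
  intro x₁ h₁ x₂ h₂ hseg
  obtain ⟨a, b, ha, hb, hab, hz⟩ := hseg
  have i₁ := ball_inner hs (hull_ball h.sph h₁)
  have i₂ := ball_inner hs (hull_ball h.sph h₂)
  have hsum : a • (x₁ - x) + b • (x₂ - x) = 0 := by
    have : a • (x₁ - x) + b • (x₂ - x) = (a • x₁ + b • x₂) - (a + b) • x := by
      simp only [smul_sub, add_smul]; abel
    rw [this, hz, hab, one_smul, sub_self]
  have hin : a * ⟪x₁ - x, x - c⟫_ℝ + b * ⟪x₂ - x, x - c⟫_ℝ = 0 := by
    have := congrArg (fun z => ⟪z, x - c⟫_ℝ) hsum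
    simpa [inner_add_left, inner_smul_left] using this
  have hn : ‖x₁ - x‖ ^ 2 = 0 := by
    by_contra hne
    have hpos : 0 < ‖x₁ - x‖ ^ 2 := lt_of_le_of_ne (sq_nonneg _) (Ne.symm hne)
    have k1 : a * ⟪x₁ - x, x - c⟫_ℝ < 0 := mul_neg_of_pos_of_neg ha (by linarith)
    have k2 : b * ⟪x₂ - x, x - c⟫_ℝ ≤ 0 :=
      mul_nonpos_of_nonneg_of_nonpos hb.le (by nlinarith [sq_nonneg ‖x₂ - x‖])
    linarith
  have := pow_eq_zero_iff (two_ne_zero) |>.1 hn
  exact sub_eq_zero.1 (norm_eq_zero.1 this)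

/-- the centre is on all the mirrors -/
theorem mirror_sphere {v w : E} (hvw : Edge (convexHull ℝ (V : Set E)) v w) (x : E) :
    ‖mirror v w x - c‖ ^ 2 = ‖x - c‖ ^ 2 := by
  have hc : mirror v w c = c := by
    apply sg_fix hvw.2.2.1
    rw [dist_comm c v, dist_comm c w, dist_eq_norm, dist_eq_norm]
    apply (sq_eq_sq₀ (norm_nonneg _) (norm_nonneg _)).1
    rw [h.sph v (edge_mem_left hvw), h.sph w (edge_mem_right hvw)]
  have := norm_sg_sub v w x c
  rwa [hc] at this

/-- local criterion at one edge -/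
theorem good_of_local {v w : E} (hvw : Edge (convexHull ℝ (V : Set E)) v w)
    (hl : ∀ u, Edge (convexHull ℝ (V : Set E)) v u → u ≠ w →
      Edge (convexHull ℝ (V : Set E)) w u ∨ InTwoFace (convexHull ℝ (V : Set E)) v w u ∨
      mirror v w u ∈ convexHull ℝ (V : Set E)) : Good V v w := by
  refine ⟨hvw, fun u hu => ?_⟩
  by_cases huw : u = w
  · rw [huw, sg_right hvw.2.2.1]
    exact edge_mem_left hvw
  rcases hl u (mem_nbr.1 hu) huw with h1 | h1 | h1
  · have : mirror v w u = u := by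
      apply sg_fix hvw.2.2.1
      rw [dist_eq_norm, dist_eq_norm]
      apply (sq_eq_sq₀ (norm_nonneg _) (norm_nonneg _)).1
      rw [h.len v u (mem_nbr.1 hu), h.len w u h1]
    rw [this]
    exact edge_mem_right (mem_nbr.1 hu)
  · exact (mirror_face h.sph h.len h.pos (mem_nbr.2 hvw) hu huw h1).1
  · apply h.mem_of_sphere h1
    rw [h.mirror_sphere hvw, h.sph u (edge_mem_right (mem_nbr.1 hu))]

/-- an edge that is in no triangle -/
theorem good_of_triangle {v w : E} (hvw : Edge (convexHull ℝ (V : Set E)) v w)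
    (hl : ∀ u, ¬ (Edge (convexHull ℝ (V : Set E)) v u ∧ Edge (convexHull ℝ (V : Set E)) w u)) :
    Good V v w := by
  -- there are no triangles at all
  have hno : ∀ x y z, Edge (convexHull ℝ (V : Set E)) x y → Edge (convexHull ℝ (V : Set E)) x z →
      ¬ Edge (convexHull ℝ (V : Set E)) y z := by
    intro x y z h1 h2 h3
    obtain ⟨g, hg, ⟨e1, e2⟩ | ⟨e1, e2⟩⟩ := h.et x y v w h1 hvw
    · apply hl (g z)
      have k1 := iso_edge g hg h2
      have k2 := iso_edge g hg h3
      rw [e1] at k1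
      rw [e2] at k2
      exact ⟨k1, k2⟩
    · apply hl (g z)
      have k1 := iso_edge g hg h2
      have k2 := iso_edge g hg h3
      rw [e1] at k1
      rw [e2] at k2
      exact ⟨k2, k1⟩
  have hv := edge_mem_left hvw
  have hob : ∀ t ∈ nbr V v, ∀ t' ∈ nbr V v, t ≠ t' → ⟪t - v, t' - v⟫_ℝ ≤ 0 := by
    intro t ht t' ht' htt'
    have k1 := dist_ge_two h.sph h.len (edge_mem_right (mem_nbr.1 ht))
      (edge_mem_right (mem_nbr.1 ht')) htt'.symm (hno v t t' (mem_nbr.1 ht) (mem_nbr.1 ht'))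
    have k2 : t' - t = (t' - v) - (t - v) := by abel
    rw [k2, norm_sub_sq_real, h.len v t (mem_nbr.1 ht), h.len v t' (mem_nbr.1 ht'),
      real_inner_comm] at k1
    linarith
  have hI := indep_of_obtuse h.sph hv hob
  refine ⟨hvw, fun u hu => ?_⟩
  by_cases huw : u = w
  · rw [huw, sg_right hvw.2.2.1]
    exact edge_mem_left hvw
  obtain ⟨F, h1, h2, h3, h4, h5⟩ := face_of_indep h.sph hv (mem_nbr.2 hvw) hu huw hI
  exact (two_face h.sph h.len h.pos hvw (mem_nbr.1 hu) huw h2 h1 h3 h4 h5).1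

/-- the neighbours of `v` in a common two-dimensional face with `w` -/
noncomputable def fc (V : Finset E) (v w : E) : Finset E :=
  (nbr V v).filter (fun u => u ≠ w ∧ InTwoFace (convexHull ℝ (V : Set E)) v w u)

omit h in
theorem mem_fc {v w u : E} : u ∈ fc V v w ↔
    u ∈ nbr V v ∧ u ≠ w ∧ InTwoFace (convexHull ℝ (V : Set E)) v w u := by
  rw [fc, Finset.mem_filter]

omit h in
theorem fc_add_mis {v w : E} (hw : w ∈ nbr V v) :
    (fc V v w).card + (mis V v w).card + 1 = (nbr V v).card := by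
  have h1 : (nbr V v).erase w = fc V v w ∪ mis V v w := by
    ext u
    rw [Finset.mem_erase, Finset.mem_union, mem_fc, mem_mis]
    tauto
  have h2 : Disjoint (fc V v w) (mis V v w) := by
    rw [Finset.disjoint_left]
    intro u h3 h4
    exact (mem_mis.1 h4).2.2 (mem_fc.1 h3).2.2
  rw [← Finset.card_union_of_disjoint h2, ← h1, Finset.card_erase_of_mem hw]
  have : 0 < (nbr V v).card := Finset.card_pos.2 ⟨w, hw⟩
  omega

theorem fc_le_symm {v w : E} (hvw : Edge (convexHull ℝ (V : Set E)) v w) :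
    (fc V v w).card ≤ (fc V w v).card := by
  apply Finset.card_le_card_of_injOn (mirror v w)
  · intro u hu
    have hu' := mem_fc.1 (by simpa using hu)
    obtain ⟨h1, h2⟩ := mirror_face h.sph h.len h.pos (mem_nbr.2 hvw) hu'.1 hu'.2.1 hu'.2.2
    rw [Finset.mem_coe, mem_fc]
    refine ⟨h.mirror_nbr hvw hu'.1 h1, ?_, h2⟩
    intro he
    apply hu'.2.1
    have := congrArg (mirror v w) he
    rwa [sg_sg hvw.2.2.1, sg_left] at this
  · exact fun x _ y _ hxy => h.mirror_inj hvw.2.2.1 hxy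

theorem fc_symm {v w : E} (hvw : Edge (convexHull ℝ (V : Set E)) v w) :
    (fc V v w).card = (fc V w v).card :=
  le_antisymm (h.fc_le_symm hvw) (h.fc_le_symm hvw.symm)

theorem fc_le_iso {g : E ≃ᵢ E} (hg : g '' convexHull ℝ (V : Set E) = convexHull ℝ (V : Set E))
    (v w : E) : (fc V v w).card ≤ (fc V (g v) (g w)).card := by
  apply Finset.card_le_card_of_injOn g
  · intro u hu
    have hu' := mem_fc.1 (by simpa using hu)
    rw [Finset.mem_coe, mem_fc]
    exact ⟨h.iso_nbr hg hu'.1, fun he => hu'.2.1 (g.injective he), iso_twoFace g hg hu'.2.2⟩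
  · exact g.injective.injOn

theorem fc_iso {g : E ≃ᵢ E} (hg : g '' convexHull ℝ (V : Set E) = convexHull ℝ (V : Set E))
    (v w : E) : (fc V (g v) (g w)).card = (fc V v w).card := by
  refine le_antisymm ?_ (h.fc_le_iso hg v w)
  have := h.fc_le_iso (iso_symm_image g hg) (g v) (g w)
  rwa [IsometryEquiv.symm_apply_apply, IsometryEquiv.symm_apply_apply] at this

theorem fc_const {v w v' w' : E} (hvw : Edge (convexHull ℝ (V : Set E)) v w)
    (hvw' : Edge (convexHull ℝ (V : Set E)) v' w') :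
    (fc V v' w').card = (fc V v w).card := by
  obtain ⟨g, hg, ⟨rfl, rfl⟩ | ⟨rfl, rfl⟩⟩ := h.et v w v' w' hvw hvw'
  · exact h.fc_iso hg v w
  · rw [h.fc_iso hg w v]
    exact h.fc_symm hvw.symm

/-- **small valency** -/
theorem good_of_valency {v w : E} (hvw : Edge (convexHull ℝ (V : Set E)) v w)
    (hn : 3 * (nbr V v).card <
      4 * Module.finrank ℝ (vectorSpan ℝ (convexHull ℝ (V : Set E)))) : Good V v w := by
  have hv := edge_mem_left hvw
  have hw := mem_nbr.2 hvw
  have h1 := fc_add_mis hw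
  by_cases hm : (mis V v w).card = 0
  · apply h.good_of_local hvw
    intro u hu huw
    right; left
    by_contra hc
    rw [Finset.card_eq_zero] at hm
    have : u ∈ mis V v w := mem_mis.2 ⟨mem_nbr.2 hu, huw, hc⟩
    rw [hm] at this
    simp at this
  · exfalso
    have := valency_bound h.sph h.len h.pos hv (Nat.pos_of_ne_zero hm) (fun t ht => by
      have h2 := fc_add_mis ht
      have h3 := h.fc_const hvw (mem_nbr.1 ht)
      omega)
    omega

end Trans

/-- existence of the data -/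
theorem exists_trans [FiniteDimensional ℝ E] {S : Set E} (hS : S.Finite)
    (hv : VertexTransitive (convexHull ℝ S)) (he : EdgeTransitive (convexHull ℝ S))
    {v w : E} (hvw : Edge (convexHull ℝ S) v w) :
    ∃ (V : Finset E) (c : E) (R L : ℝ), convexHull ℝ (V : Set E) = convexHull ℝ S ∧
      Trans V c R L := by
  obtain ⟨V, hV, hP⟩ := exists_vertices hS
  rw [← hP] at hv he hvw hV
  have hext : ∀ x, x ∈ (convexHull ℝ (V : Set E)).extremePoints ℝ ↔ x ∈ V := by
    intro x
    rw [hV]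
    simp
  have hvV := (hext v).1 hvw.1
  obtain ⟨c, hc⟩ := iso_centroid ⟨v, hvV⟩
  refine ⟨V, c, ‖v - c‖ ^ 2, ‖w - v‖ ^ 2, hP, ?_⟩
  have hfix : ∀ g : E ≃ᵢ E, g '' convexHull ℝ (V : Set E) = convexHull ℝ (V : Set E) →
      g c = c := fun g hg => hc g fun x hx =>
    (hext _).1 (iso_extremePoints g hg ((hext x).2 hx))
  have hnorm : ∀ (g : E ≃ᵢ E) (x y : E), ‖g x - g y‖ = ‖x - y‖ := fun g x y => by
    rw [← dist_eq_norm, ← dist_eq_norm, g.dist_eq]
  refine ⟨fun x hx => (hext x).1 hx, hv, he, hfix, ?_, ?_, ?_⟩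
  · intro x hx
    obtain ⟨g, hg, rfl⟩ := hv v hvw.1 x ((hext x).2 hx)
    have := hnorm g v c
    rw [hfix g hg] at this
    rw [this]
  · intro v' w' h'
    obtain ⟨g, hg, ⟨rfl, rfl⟩ | ⟨rfl, rfl⟩⟩ := he v w v' w' hvw h'
    · rw [hnorm]
    · rw [hnorm, norm_sub_rev]
  · have : w - v ≠ 0 := sub_ne_zero.2 hvw.2.2.1.symm
    positivity

theorem ncard_nbr {V : Finset E} {v : E} :
    {u | Edge (convexHull ℝ (V : Set E)) v u}.ncard = (nbr V v).card := by
  rw [← Set.ncard_coe_finset]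
  congr 1
  ext u
  simp [mem_nbr]

end Pool.Agent.Lib.MP_03766d_co
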