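import Pool.Agent.Lib.MP_03766d_co.Indep

/-! Two edges at a vertex that are not in a common two-dimensional face: a linear relation. -/

namespace Pool.Agent.Lib.MP_03766d_co

open scoped InnerProductSpace BigOperators Classical

variable {E : Type*} [NormedAddCommGroup E] [InnerProductSpace ℝ E]

section
variable {V : Finset E} {c : E} {R L : ℝ}
  (hV : ∀ x ∈ V, ‖x - c‖ ^ 2 = R)
  (hL : ∀ v w, Edge (convexHull ℝ (V : Set E)) v w → ‖w - v‖ ^ 2 = L)
include hV hL

theorem height {v t : E} (ht : t ∈ nbr V v) : 2 * ⟪t - v, v - c⟫_ℝ = - L := by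
  have h := mem_nbr.1 ht
  rw [sphere_inner (hV v (edge_mem_left h)) (hV t (edge_mem_right h)), hL v t h]

/-- the coefficients of a relation have the sum zero -/
theorem sum_zero (hL0 : 0 < L) {v : E} {y : E → ℝ}
    (hy : ∑ t ∈ nbr V v, y t • (t - v) = 0) : ∑ t ∈ nbr V v, y t = 0 := by
  have h1 := congrArg (fun z => 2 * ⟪z, v - c⟫_ℝ) hy
  simp only [sum_inner, inner_zero_left, mul_zero, inner_smul_left, RCLike.conj_to_real] at h1
  rw [Finset.mul_sum] at h1
  have h2 : ∑ t ∈ nbr V v, 2 * (y t * ⟪t - v, v - c⟫_ℝ) = ∑ t ∈ nbr V v, y t * (- L) := by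
    apply Finset.sum_congr rfl
    intro t ht
    have := height hV hL ht
    rw [← this]; ring
  rw [h2, ← Finset.sum_mul] at h1
  rcases mul_eq_zero.1 h1 with h | h
  · exact h
  · exact absurd h (by linarith)

/-- independence of two edge vectors -/
theorem pair_indep (hL0 : 0 < L) {v w u : E} (hw : w ∈ nbr V v) (hu : u ∈ nbr V v)
    (huw : u ≠ w) (α β : ℝ) (h : α • (w - v) + β • (u - v) = 0) : α = 0 ∧ β = 0 := by
  have hiw := height hV hL hw
  have hiu := height hV hL hu
  have h1 := congrArg (fun z => ⟪z, v - c⟫_ℝ) h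
  simp only [inner_add_left, inner_smul_left, inner_zero_left, RCLike.conj_to_real] at h1
  have h2 : (α + β) * L = 0 := by linear_combination (-2) * h1 + α * hiw + β * hiu
  have h3 : α = - β := by
    rcases mul_eq_zero.1 h2 with h | h
    · linarith
    · exact absurd h hL0.ne'
  rw [h3] at h
  have h4 : β • (u - w) = 0 := by
    have : β • (u - w) = -β • (w - v) + β • (u - v) := by module
    rw [this, h]
  rcases smul_eq_zero.1 h4 with h | h
  · exact ⟨by linarith, h⟩
  · exact absurd (sub_eq_zero.1 h) huw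

theorem pair_finrank (hL0 : 0 < L) {v w u : E} (hw : w ∈ nbr V v) (hu : u ∈ nbr V v)
    (huw : u ≠ w) : Module.finrank ℝ (Submodule.span ℝ {w - v, u - v}) = 2 := by
  have hli : LinearIndependent ℝ ![w - v, u - v] := by
    rw [LinearIndependent.pair_iff]
    exact pair_indep hV hL hL0 hw hu huw
  have h := finrank_span_eq_card hli
  rw [Matrix.range_cons, Matrix.range_cons, Matrix.range_empty, Set.union_empty,
    Set.singleton_union, Fintype.card_fin] at h
  exact h

/-- a two-dimensional face with two edges at `v` lies in the plane of the two edges -/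
theorem plane_of_face (hL0 : 0 < L) {v w u : E} (hw : w ∈ nbr V v) (hu : u ∈ nbr V v)
    (huw : u ≠ w) {F : Set E} (hvF : v ∈ F) (hwF : w ∈ F) (huF : u ∈ F)
    (hF : Module.finrank ℝ (vectorSpan ℝ F) = 2) {x : E} (hx : x ∈ F) :
    ∃ r s : ℝ, x - v = r • (w - v) + s • (u - v) := by
  have hfin : FiniteDimensional ℝ (vectorSpan ℝ F) := by
    apply Module.finite_of_finrank_pos
    omega
  have hle : Submodule.span ℝ {w - v, u - v} ≤ vectorSpan ℝ F := by
    rw [Submodule.span_le]
    rintro z (rfl | rfl)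
    · exact vsub_mem_vectorSpan ℝ hwF hvF
    · exact vsub_mem_vectorSpan ℝ huF hvF
  have heq := Submodule.eq_of_le_of_finrank_eq hle (by
    rw [pair_finrank hV hL hL0 hw hu huw, hF])
  have h1 : x - v ∈ Submodule.span ℝ {w - v, u - v} := by
    rw [heq]
    exact vsub_mem_vectorSpan ℝ hx hvF
  rw [Submodule.mem_span_pair] at h1
  obtain ⟨r, s, h⟩ := h1
  exact ⟨r, s, h.symm⟩

/-- the mirror image of a neighbour in a common two-dimensional face -/
theorem mirror_face (hL0 : 0 < L) {v w u : E} (hw : w ∈ nbr V v) (hu : u ∈ nbr V v)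
    (huw : u ≠ w) (h : InTwoFace (convexHull ℝ (V : Set E)) v w u) :
    mirror v w u ∈ V ∧ InTwoFace (convexHull ℝ (V : Set E)) w v (mirror v w u) := by
  obtain ⟨F, hFc, hFe, hvF, hwF, huF, hF⟩ := h
  obtain ⟨h1, h2⟩ := two_face hV hL hL0 (mem_nbr.1 hw) (mem_nbr.1 hu) huw hFe hFc hwF huF
    fun x hx => plane_of_face hV hL hL0 hw hu huw hvF hwF huF hF hx
  exact ⟨h1, F, hFc, hFe, hwF, hvF, h2, hF⟩

/-- **A pair of edges without a common two-dimensional face gives a linear relation** between the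
edge vectors in which exactly these two have negative coefficients. -/
theorem rel_of_missing (hL0 : 0 < L) {v w u : E} (hw : w ∈ nbr V v) (hu : u ∈ nbr V v)
    (huw : u ≠ w) (h : ¬ InTwoFace (convexHull ℝ (V : Set E)) v w u) :
    ∃ y : E → ℝ, ∑ t ∈ nbr V v, y t • (t - v) = 0 ∧ y w ≤ 0 ∧ y u ≤ 0 ∧ y w + y u = -1 ∧
      ∀ t ∈ nbr V v, t ≠ w → t ≠ u → 0 ≤ y t := by
  set P := convexHull ℝ (V : Set E) with hP
  have hPc : Convex ℝ P := convex_convexHull ℝ _
  have hv : v ∈ V := edge_mem_left (mem_nbr.1 hw)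
  have hvP : v ∈ P := subset_convexHull ℝ _ (by simpa using hv)
  have hwP : w ∈ P := subset_convexHull ℝ _ (by simpa using edge_mem_right (mem_nbr.1 hw))
  have huP : u ∈ P := subset_convexHull ℝ _ (by simpa using edge_mem_right (mem_nbr.1 hu))
  set F : Set E := {x | x ∈ P ∧ ∃ r s : ℝ, 0 ≤ r ∧ 0 ≤ s ∧
    x - v = r • (w - v) + s • (u - v)} with hF
  have hvF : v ∈ F := ⟨hvP, 0, 0, le_rfl, le_rfl, by simp⟩
  have hwF : w ∈ F := ⟨hwP, 1, 0, zero_le_one, le_rfl, by simp⟩
  have huF : u ∈ F := ⟨huP, 0, 1, le_rfl, zero_le_one, by simp⟩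
  have hFc : Convex ℝ F := by
    intro x hx y hy α β hα hβ hαβ
    refine ⟨hPc hx.1 hy.1 hα hβ hαβ, ?_⟩
    obtain ⟨r, s, hr, hs, h1⟩ := hx.2
    obtain ⟨r', s', hr', hs', h2⟩ := hy.2
    refine ⟨α * r + β * r', α * s + β * s', by positivity, by positivity, ?_⟩
    have h3 : α • x + β • y - v = α • (x - v) + β • (y - v) := by
      have : v = (α + β) • v := by rw [hαβ, one_smul]
      nth_rewrite 1 [this]
      module
    rw [h3, h1, h2]
    module
  have hFs : vectorSpan ℝ F = Submodule.span ℝ {w - v, u - v} := by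
    apply le_antisymm
    · rw [vectorSpan_eq_span_vsub_set_right ℝ hvF, Submodule.span_le]
      rintro _ ⟨x, hx, rfl⟩
      obtain ⟨_, r, s, _, _, hrs⟩ := hx
      simp only [vsub_eq_sub, SetLike.mem_coe]
      rw [hrs, Submodule.mem_span_pair]
      exact ⟨r, s, rfl⟩
    · rw [Submodule.span_le]
      rintro z (rfl | rfl)
      · exact vsub_mem_vectorSpan ℝ hwF hvF
      · exact vsub_mem_vectorSpan ℝ huF hvF
  have hFr : Module.finrank ℝ (vectorSpan ℝ F) = 2 := by
    rw [hFs, pair_finrank hV hL hL0 hw hu huw]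
  have hne : ¬ IsExtreme ℝ P F := fun hE => h ⟨F, hFc, hE, hvF, hwF, huF, hFr⟩
  -- a segment through `F` which leaves `F`
  obtain ⟨x₁, h₁, x₂, h₂, z, hz, hzo, hx₁⟩ : ∃ x₁ ∈ P, ∃ x₂ ∈ P, ∃ z ∈ F,
      z ∈ openSegment ℝ x₁ x₂ ∧ x₁ ∉ F := by
    by_contra hcon
    push Not at hcon
    exact hne ⟨fun x hx => hx.1, fun x₁ h₁ x₂ h₂ z hz hzo => hcon x₁ h₁ x₂ h₂ z hz hzo⟩
  obtain ⟨α, β, hα, hβ, hαβ, hz12⟩ := hzo
  obtain ⟨a, ha, has⟩ := cone_nbr hV hv h₁
  obtain ⟨b, hb, hbs⟩ := cone_nbr hV hv h₂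
  obtain ⟨_, r, s, hr, hs, hrs⟩ := hz
  have h3 : z - v = α • (x₁ - v) + β • (x₂ - v) := by
    rw [← hz12]
    have : v = (α + β) • v := by rw [hαβ, one_smul]
    nth_rewrite 1 [this]
    module
  set y : E → ℝ := fun t => α * a t + β * b t - (if t = w then r else 0) -
    (if t = u then s else 0) with hy
  have h4 : ∑ t ∈ nbr V v, y t • (t - v) = 0 := by
    have e1 : ∑ t ∈ nbr V v, (if t = w then r else 0) • (t - v) = r • (w - v) := by
      rw [Finset.sum_eq_single w]
      · simp
      · intro t _ ht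
        rw [if_neg ht, zero_smul]
      · intro h; exact absurd hw h
    have e2 : ∑ t ∈ nbr V v, (if t = u then s else 0) • (t - v) = s • (u - v) := by
      rw [Finset.sum_eq_single u]
      · simp
      · intro t _ ht
        rw [if_neg ht, zero_smul]
      · intro h; exact absurd hu h
    simp only [hy, sub_smul _ _ (_ - v), Finset.sum_sub_distrib]
    rw [e1, e2]
    have e3 : ∑ t ∈ nbr V v, (α * a t + β * b t) • (t - v) = z - v := by
      rw [h3, has, hbs, Finset.smul_sum, Finset.smul_sum, ← Finset.sum_add_distrib]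
      apply Finset.sum_congr rfl
      intro t _
      rw [add_smul, mul_smul, mul_smul]
    rw [e3, hrs]
    module
  have hsum := sum_zero hV hL hL0 h4
  have hnn : ∀ t ∈ nbr V v, t ≠ w → t ≠ u → 0 ≤ y t := by
    intro t _ htw htu
    simp only [hy, if_neg htw, if_neg htu, sub_zero]
    exact add_nonneg (mul_nonneg hα.le (ha t)) (mul_nonneg hβ.le (hb t))
  -- the other coefficients do not all vanish
  have hpos : ∃ t ∈ nbr V v, t ≠ w ∧ t ≠ u ∧ 0 < y t := by
    by_contra hcon
    push Not at hcon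
    apply hx₁
    refine ⟨h₁, a w, a u, ha w, ha u, ?_⟩
    rw [has, ← Finset.add_sum_erase _ _ hw,
      ← Finset.add_sum_erase _ _ (Finset.mem_erase.2 ⟨huw, hu⟩), Finset.sum_eq_zero, add_zero]
    intro t ht
    rw [Finset.mem_erase, Finset.mem_erase] at ht
    have h5 := hcon t ht.2.2 ht.2.1 ht.1
    simp only [hy, if_neg ht.2.1, if_neg ht.1, sub_zero] at h5
    have h7 : 0 ≤ α * a t := mul_nonneg hα.le (ha t)
    have h8 : 0 ≤ β * b t := mul_nonneg hβ.le (hb t)
    have h9 : α * a t = 0 := by linarith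
    rcases mul_eq_zero.1 h9 with h | h
    · exact absurd h hα.ne'
    · rw [h, zero_smul]
  have hsplit : y w + (y u + ∑ t ∈ ((nbr V v).erase w).erase u, y t) = 0 := by
    rw [Finset.add_sum_erase _ _ (Finset.mem_erase.2 ⟨huw, hu⟩), Finset.add_sum_erase _ _ hw, hsum]
  have hS : 0 < ∑ t ∈ ((nbr V v).erase w).erase u, y t := by
    obtain ⟨t, ht, htw, htu, hty⟩ := hpos
    apply Finset.sum_pos' _ ⟨t, by rw [Finset.mem_erase, Finset.mem_erase]; exact ⟨htu, htw, ht⟩,
      hty⟩
    intro t' ht'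
    rw [Finset.mem_erase, Finset.mem_erase] at ht'
    exact hnn t' ht'.2.2 ht'.2.1 ht'.1
  have hneg : y w + y u < 0 := by linarith
  -- no relation with a single negative coefficient
  have single : ∀ p ∈ nbr V v, y p < 0 → (∀ t ∈ nbr V v, t ≠ p → 0 ≤ y t) → False := by
    intro p hp hyp hoth
    have hpV := edge_mem_right (mem_nbr.1 hp)
    have e1 : ∑ t ∈ nbr V v, y t • (t - p) = 0 := by
      have : ∀ t ∈ nbr V v, y t • (t - p) = y t • (t - v) - y t • (p - v) := fun t _ => by
        module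
      rw [Finset.sum_congr rfl this, Finset.sum_sub_distrib, h4, ← Finset.sum_smul, hsum,
        zero_smul, sub_zero]
    have e2 := congrArg (fun z => ⟪z, p - c⟫_ℝ) e1
    simp only [sum_inner, inner_zero_left, inner_smul_left, RCLike.conj_to_real] at e2
    have e3 : ∀ t ∈ nbr V v, t ≠ p → ⟪t - p, p - c⟫_ℝ < 0 := by
      intro t ht htp
      have k1 := sphere_inner (hV p hpV) (hV t (edge_mem_right (mem_nbr.1 ht)))
      have k2 : 0 < ‖t - p‖ ^ 2 := by
        have : t - p ≠ 0 := sub_ne_zero.2 htp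
        positivity
      linarith
    have e4 : ∀ t ∈ nbr V v, y t * ⟪t - p, p - c⟫_ℝ ≤ 0 := by
      intro t ht
      by_cases htp : t = p
      · rw [htp, sub_self, inner_zero_left, mul_zero]
      · exact mul_nonpos_of_nonneg_of_nonpos (hoth t ht htp) (e3 t ht htp).le
    have e5 := (Finset.sum_eq_zero_iff_of_nonpos e4).1 e2
    have e6 : ∑ t ∈ nbr V v, y t = y p := by
      rw [Finset.sum_eq_single p]
      · intro t ht htp
        have := e5 t ht
        rcases mul_eq_zero.1 this with h | h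
        · exact h
        · exact absurd h (e3 t ht htp).ne
      · intro h; exact absurd hp h
    rw [hsum] at e6
    linarith
  have hyw : y w ≤ 0 := by
    by_contra hcon
    push Not at hcon
    apply single u hu (by linarith)
    intro t ht htu
    by_cases htw : t = w
    · rw [htw]; exact hcon.le
    · exact hnn t ht htw htu
  have hyu : y u ≤ 0 := by
    by_contra hcon
    push Not at hcon
    apply single w hw (by linarith)
    intro t ht htw
    by_cases htu : t = u
    · rw [htu]; exact hcon.le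
    · exact hnn t ht htw htu
  set q := -(y w + y u) with hq
  have hq0 : 0 < q := by rw [hq]; linarith
  refine ⟨fun t => q⁻¹ * y t, ?_, ?_, ?_, ?_, ?_⟩
  · simp only [mul_smul]
    rw [← Finset.smul_sum, h4, smul_zero]
  · exact mul_nonpos_of_nonneg_of_nonpos (by positivity) hyw
  · exact mul_nonpos_of_nonneg_of_nonpos (by positivity) hyu
  · have : q⁻¹ * y w + q⁻¹ * y u = q⁻¹ * (- q) := by rw [hq]; ring
    rw [this]
    field_simp
  · intro t ht htw htu
    exact mul_nonneg (by positivity) (hnn t ht htw htu)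

end

end Pool.Agent.Lib.MP_03766d_co
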