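import Pool.Agent.Lib.MP_03766d_co.Greedy
import Pool.Agent.Lib.MP_03766d_co.Bisector

/-! Two edges at a vertex in a common two-dimensional face: the mirror image is a vertex. -/

namespace Pool.Agent.Lib.MP_03766d_co

open scoped InnerProductSpace BigOperators Classical

variable {E : Type*} [NormedAddCommGroup E] [InnerProductSpace ℝ E]

theorem avg_mem {P : Set E} (hP : Convex ℝ P) {w : E} (hw : w ∈ P) (a : E → ℝ)
    (ha : ∀ t, 0 ≤ a t) (T : Finset E) (hT : ∀ t ∈ T, t ∈ P) :
    (1 + ∑ t ∈ T, a t)⁻¹ • (w + ∑ t ∈ T, a t • t) ∈ P := by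
  induction T using Finset.induction_on with
  | empty => simpa using hw
  | insert t₀ T ht₀ ih =>
    have ih' := ih fun t ht => hT t (Finset.mem_insert_of_mem ht)
    rw [Finset.sum_insert ht₀, Finset.sum_insert ht₀]
    set b := 1 + ∑ t ∈ T, a t with hb
    have hb0 : 0 < b := by
      have := Finset.sum_nonneg fun t (_ : t ∈ T) => ha t
      linarith
    have hb1 : 0 < b + a t₀ := by have := ha t₀; linarith
    have e1 : (1 + (a t₀ + ∑ t ∈ T, a t)) = b + a t₀ := by rw [hb]; ring
    rw [e1]
    have h := hP ih' (hT t₀ (Finset.mem_insert_self _ _)) (a := b / (b + a t₀))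
      (b := a t₀ / (b + a t₀)) (by positivity) (div_nonneg (ha t₀) hb1.le)
      (by field_simp)
    convert h using 1
    rw [smul_smul]
    have e2 : b / (b + a t₀) * b⁻¹ = (b + a t₀)⁻¹ := by field_simp
    rw [e2]
    have e3 : a t₀ / (b + a t₀) = (b + a t₀)⁻¹ * a t₀ := by field_simp
    rw [e3, mul_smul, ← smul_add]
    congr 1
    abel

section
variable {V : Finset E} {c : E} {R L : ℝ}
  (hV : ∀ x ∈ V, ‖x - c‖ ^ 2 = R)
  (hL : ∀ v w, Edge (convexHull ℝ (V : Set E)) v w → ‖w - v‖ ^ 2 = L)
include hV hL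

theorem two_face (hL0 : 0 < L) {v w u : E} (hvw : Edge (convexHull ℝ (V : Set E)) v w)
    (hvu : Edge (convexHull ℝ (V : Set E)) v u) (huw : u ≠ w) {F : Set E}
    (hF : IsExtreme ℝ (convexHull ℝ (V : Set E)) F) (hFc : Convex ℝ F) (hw : w ∈ F) (hu : u ∈ F)
    (hFs : ∀ x ∈ F, ∃ r s : ℝ, x - v = r • (w - v) + s • (u - v)) :
    mirror v w u ∈ V ∧ mirror v w u ∈ F := by
  have hvV := edge_mem_left hvw
  have hwV := edge_mem_right hvw
  have huV := edge_mem_right hvu
  obtain ⟨T, hT, hcone⟩ := exists_edge_cone hV hwV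
  obtain ⟨a, ha, has⟩ := hcone u (subset_convexHull ℝ _ (by simpa using huV))
  have hPc : Convex ℝ (convexHull ℝ (V : Set E)) := convex_convexHull ℝ _
  have hTP : ∀ t ∈ T, t ∈ convexHull ℝ (V : Set E) := fun t ht =>
    subset_convexHull ℝ _ (by simpa using (hT t ht).1)
  have hwP : w ∈ convexHull ℝ (V : Set E) := subset_convexHull ℝ _ (by simpa using hwV)
  have hS0 : 0 ≤ ∑ t ∈ T, a t := Finset.sum_nonneg fun t _ => ha t
  -- the terms with positive coefficient lie in `F`
  have hmem : ∀ t₀ ∈ T, 0 < a t₀ → t₀ ∈ F := by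
    intro t₀ ht₀ hpos
    have hy := avg_mem hPc hwP a ha (T.erase t₀) fun t ht => hTP t (Finset.mem_of_mem_erase ht)
    set b := 1 + ∑ t ∈ T.erase t₀, a t with hb
    have hb0 : 0 < b := by
      have := Finset.sum_nonneg fun t (_ : t ∈ T.erase t₀) => ha t
      linarith
    have hSb : 1 + ∑ t ∈ T, a t = b + a t₀ := by
      rw [hb, ← Finset.add_sum_erase T _ ht₀]; ring
    have hz : w + (b + a t₀)⁻¹ • (u - w) ∈ F := by
      have h1 : w + (b + a t₀)⁻¹ • (u - w) ∈ segment ℝ w u := by
        rw [segment_eq_image']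
        refine ⟨(b + a t₀)⁻¹, ⟨by positivity, ?_⟩, rfl⟩
        apply inv_le_one_of_one_le₀
        rw [← hSb]; linarith
      exact hFc.segment_subset hw hu h1
    apply hF.left_mem_of_mem_openSegment (hTP t₀ ht₀) hy hz
    refine ⟨a t₀ / (b + a t₀), b / (b + a t₀), by positivity, by positivity, by field_simp; ring,
      ?_⟩
    rw [smul_smul]
    have e2 : b / (b + a t₀) * b⁻¹ = (b + a t₀)⁻¹ := by field_simp
    have e3 : a t₀ / (b + a t₀) = (b + a t₀)⁻¹ * a t₀ := by field_simp
    rw [e2, e3, mul_smul, ← smul_add]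
    have e4 : w = (b + a t₀)⁻¹ • ((b + a t₀) • w) := by
      rw [smul_smul, inv_mul_cancel₀ (by positivity), one_smul]
    have e5 : w + (b + a t₀)⁻¹ • (u - w) =
        (b + a t₀)⁻¹ • ((b + a t₀) • w + (u - w)) := by
      rw [smul_add, ← e4]
    rw [e5]
    congr 1
    rw [has, ← hSb, ← Finset.add_sum_erase T (fun t => a t • (t - w)) ht₀]
    simp only [smul_sub, Finset.sum_sub_distrib, ← Finset.sum_smul]
    rw [← Finset.add_sum_erase T a ht₀]
    module
  -- independence of the two edge vectors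
  have hlw : ‖w - v‖ ^ 2 = L := hL v w hvw
  have hlu : ‖u - v‖ ^ 2 = L := hL v u hvu
  have hiw := sphere_inner (hV v hvV) (hV w hwV)
  have hiu := sphere_inner (hV v hvV) (hV u huV)
  rw [hlw] at hiw
  rw [hlu] at hiu
  have hindep : ∀ α β : ℝ, α • (w - v) + β • (u - v) = 0 → β = 0 := by
    intro α β h
    have h1 := congrArg (fun z => ⟪z, v - c⟫_ℝ) h
    simp only [inner_add_left, inner_smul_left, inner_zero_left, RCLike.conj_to_real] at h1
    have h2 : (α + β) * L = 0 := by linear_combination (-2) * h1 + α * hiw + β * hiu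
    have h3 : α = - β := by
      rcases mul_eq_zero.1 h2 with h | h
      · linarith
      · exact absurd h hL0.ne'
    rw [h3] at h
    have h4 : β • (u - w) = 0 := by
      have : β • (u - w) = -β • (w - v) + β • (u - v) := by module
      rw [this, h]
    rcases smul_eq_zero.1 h4 with h | h
    · exact h
    · exact absurd (sub_eq_zero.1 h) huw
  -- a term with positive coefficient along `u - v`
  obtain ⟨t₀, ht₀, hat₀, r, s, hs, hrs⟩ : ∃ t ∈ T, 0 < a t ∧ ∃ r s : ℝ, 0 < s ∧
      t - v = r • (w - v) + s • (u - v) := by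
    by_contra hcon
    push Not at hcon
    have hch : ∀ t ∈ T, ∃ p : ℝ × ℝ, 0 < a t → t - v = p.1 • (w - v) + p.2 • (u - v) ∧
        p.2 ≤ 0 := by
      intro t ht
      by_cases hat : 0 < a t
      · obtain ⟨r, s, h⟩ := hFs t (hmem t ht hat)
        refine ⟨(r, s), fun _ => ⟨h, ?_⟩⟩
        by_contra hs
        push Not at hs
        exact hcon t ht hat r s hs h
      · exact ⟨(0, 0), fun h => absurd h hat⟩
    choose! p hp using hch
    have h1 : (∑ t ∈ T, a t * ((p t).1 - 1)) • (w - v) + (∑ t ∈ T, a t * (p t).2) • (u - v) =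
        u - w := by
      rw [has, Finset.sum_smul, Finset.sum_smul, ← Finset.sum_add_distrib]
      apply Finset.sum_congr rfl
      intro t ht
      rcases (ha t).eq_or_lt with h0 | h0
      · rw [← h0]; simp
      · have h2 : t - w = (t - v) - (w - v) := by abel
        rw [h2, (hp t ht h0).1]
        module
    have h2 : ∑ t ∈ T, a t * (p t).2 ≤ 0 := by
      apply Finset.sum_nonpos
      intro t ht
      rcases (ha t).eq_or_lt with h0 | h0
      · rw [← h0]; simp
      · have := (hp t ht h0).2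
        nlinarith
    have h3 : ((∑ t ∈ T, a t * ((p t).1 - 1)) + 1) • (w - v) +
        ((∑ t ∈ T, a t * (p t).2) - 1) • (u - v) = 0 := by
      rw [add_smul, sub_smul, one_smul, one_smul]
      have : (∑ t ∈ T, a t * ((p t).1 - 1)) • (w - v) + (w - v) +
          ((∑ t ∈ T, a t * (p t).2) • (u - v) - (u - v)) =
          ((∑ t ∈ T, a t * ((p t).1 - 1)) • (w - v) + (∑ t ∈ T, a t * (p t).2) • (u - v)) -
            (u - w) := by module
      rw [this, h1, sub_self]
    have h4 := hindep _ _ h3
    linarith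
  -- compute it
  have hle := hL w t₀ (hT t₀ ht₀).2
  have hin := sphere_inner (hV w hwV) (hV t₀ (hT t₀ ht₀).1)
  rw [hle] at hin
  set G := ⟪w - v, u - v⟫_ℝ with hG
  have hG' : ⟪u - v, w - v⟫_ℝ = G := by rw [hG, real_inner_comm]
  have hf : t₀ - w = (r - 1) • (w - v) + s • (u - v) := by
    have h2 : t₀ - w = (t₀ - v) - (w - v) := by abel
    rw [h2, hrs]; module
  have hGL : G < L := by
    have h1 : 0 < ‖(u - v) - (w - v)‖ ^ 2 := by
      have : (u - v) - (w - v) ≠ 0 := by
        rw [sub_sub_sub_cancel_right]; exact sub_ne_zero.2 huw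
      positivity
    rw [norm_sub_sq_real, hlu, hlw, hG'] at h1
    linarith
  have hwc : w - c = (v - c) + (w - v) := by abel
  rw [hf, hwc] at hin
  simp only [inner_add_left, inner_add_right, inner_smul_left, RCLike.conj_to_real,
    real_inner_self_eq_norm_sq, hlw, hG'] at hin
  rw [hf, norm_add_sq_real, norm_smul, norm_smul, mul_pow, mul_pow, hlw, hlu, inner_smul_left,
    inner_smul_right, ← hG] at hle
  simp only [Real.norm_eq_abs, sq_abs, RCLike.conj_to_real] at hle
  have hE1 : (r - 1 - s + 1) * L = - 2 * s * G := by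
    linear_combination hin - (r - 1) * hiw - s * hiu
  have hE2 : (s - 1) * ((r - 1) + s + 1) = 0 := by
    have h1 : L * ((s - 1) * ((r - 1) + s + 1)) = 0 := by
      linear_combination hle - (r - 1) * hE1
    rcases mul_eq_zero.1 h1 with h | h
    · exact absurd h hL0.ne'
    · exact h
  have hs1 : s = 1 := by
    rcases mul_eq_zero.1 hE2 with h | h
    · linarith
    · exfalso
      have h1 : r = - s := by linarith
      rw [h1] at hE1
      have h2 : s * (L - G) = 0 := by linear_combination (-1/2) * hE1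
      rcases mul_eq_zero.1 h2 with h | h
      · linarith
      · linarith
  rw [hs1] at hE1 hf
  have hfin : mirror v w u = t₀ := by
    have h1 : 2 * ⟪u - v, w - v⟫_ℝ / ‖w - v‖ ^ 2 - 1 = - r := by
      rw [hG', hlw]
      field_simp
      linarith
    rw [mirror, h1]
    have h2 : t₀ = w + (t₀ - w) := by abel
    rw [h2, hf]
    module
  rw [hfin]
  exact ⟨(hT t₀ ht₀).1, hmem t₀ ht₀ hat₀⟩

/-- If all mirror images of neighbours are vertices then the bisector reflections of the edges
preserve the vertex set. -/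
theorem propagate (hL0 : 0 < L)
    (hR : ∀ v w u, Edge (convexHull ℝ (V : Set E)) v w → Edge (convexHull ℝ (V : Set E)) v u →
      mirror v w u ∈ V) {v w : E} (hvw : Edge (convexHull ℝ (V : Set E)) v w) {x : E} (hx : x ∈ V) :
    mirror v w x ∈ V := by
  have hne := hvw.2.2.1
  set P := convexHull ℝ (V : Set E) with hP
  set f := sgE hne with hf
  have hfx : ∀ z, f z = mirror v w z := fun z => rfl
  have key : ∀ x ∈ V, (fun x => x ∈ V ∧ f x ∈ V ∧ ∀ y, Edge P x y → Edge P (f x) (f y)) x := by
    intro x hx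
    apply connected hV hL hL0 (edge_mem_left hvw)
      (A := fun x => x ∈ V ∧ f x ∈ V ∧ ∀ y, Edge P x y → Edge P (f x) (f y)) _ _ hx
    · refine ⟨edge_mem_left hvw, ?_, ?_⟩
      · rw [hfx, sg_left]; exact edge_mem_right hvw
      · intro y hy
        have h1 := hR v w y hvw hy
        rw [hfx, hfx]
        apply edge_of_dist hV hL _ h1 _ hL0
        · rw [sg_left]; exact edge_mem_right hvw
        · rw [norm_sg_sub, hL v y hy]
    · intro x y hA hxy
      obtain ⟨hxV, hfxV, hA3⟩ := hA
      have hfe := hA3 y hxy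
      refine ⟨edge_mem_right hxy, edge_mem_right hfe, ?_⟩
      intro z hz
      have h1 : mirror x y z ∈ V := by
        rw [← sg_comm hxy.2.2.1]
        exact hR y x z hxy.symm hz
      have h2 : Edge P x (mirror x y z) := by
        apply edge_of_dist hV hL hxV h1 _ hL0
        have h3 := norm_sg_sub x y z y
        rw [sg_right hxy.2.2.1] at h3
        rw [h3, hL y z hz]
      have h3 := hA3 _ h2
      rw [sg_map f x y z] at h3
      have h4 := hR (f x) (f y) _ hfe h3
      rw [sg_sg hfe.2.2.1] at h4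
      apply edge_of_dist hV hL (edge_mem_right hfe) h4 _ hL0
      rw [hfx, hfx, norm_sg_sub, hL y z hz]
  exact (key x hx).2.1

end

end Pool.Agent.Lib.MP_03766d_co
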